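import Mathlib
import Pool.Agent.Lib.MP_f4ab27_co_NT.NoThree

/-!
Covering families of integer vectors and their members that are flat on a set of coordinates.

Let `F` be a family of integer vectors of length `q` in which every difference of two distinct
members has a coordinate equal to `1`, and let `B` be a set of `b` coordinates.  At most
`2 ^ (q - b) * C(b, b / 2)` members take on `B` only two consecutive values `a`, `a + 1`, where `a`
may depend on the member.  More generally the values of the members on `B` may be taken from the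
levels of a system of sets of integers.
-/

set_option autoImplicit false

namespace Pool.Agent.Results.MP_f4ab27_co.FlatMembers

open Finset

open Pool.Agent.Lib.MP_f4ab27_co_NT (IsCovering IsCoveringFamily NoThree MeetsTriples)

/-- A system of levels: `L` is a linear order and `S i a`, for a coordinate `i` and `a ∈ L`, is a
set of integers without three consecutive members; if `a < b` then no member of `S i a` is the
successor of a member of `S i b`. -/
structure Levels {q : ℕ} {L : Type} [LinearOrder L] (S : Fin q → L → Set ℤ) : Prop where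
  noThree : ∀ i a n, ¬ (n ∈ S i a ∧ n + 1 ∈ S i a ∧ n + 2 ∈ S i a)
  noDrop : ∀ i a b, a < b → ∀ n, ¬ (n + 1 ∈ S i a ∧ n ∈ S i b)

/-- The vector `u` takes on `B` values from one level `a`. -/
def OnLevel {q : ℕ} {L : Type} (S : Fin q → L → Set ℤ) (B : Finset (Fin q)) (u : Fin q → ℤ) :
    Prop := ∃ a, ∀ i ∈ B, u i ∈ S i a

open Classical in
/-- The number of coordinates of `u` with a value from the level `a`. -/
noncomputable def count {q : ℕ} {L : Type} (S : Fin q → L → Set ℤ) (a : L) (u : Fin q → ℤ) : ℕ :=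
  (univ.filter fun i => u i ∈ S i a).card

/-- The central binomial coefficients are at most `2 ^ b / √(b + 1)`. -/
lemma central (n : ℕ) : (2 * n + 1) * (2 * n).choose n ^ 2 ≤ 4 ^ (2 * n) := by
  induction n with
  | zero => simp
  | succ n ih =>
    have h := Nat.succ_mul_centralBinom_succ n
    rw [Nat.centralBinom, Nat.centralBinom] at h
    set c := (2 * n).choose n with hc
    set d := (2 * (n + 1)).choose (n + 1) with hd
    have h1 : (n + 1) ^ 2 * ((2 * (n + 1) + 1) * d ^ 2) ≤ (n + 1) ^ 2 * 4 ^ (2 * (n + 1)) := by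
      calc (n + 1) ^ 2 * ((2 * (n + 1) + 1) * d ^ 2)
          = (2 * n + 3) * ((n + 1) * d) ^ 2 := by ring
        _ = (2 * n + 3) * (2 * (2 * n + 1) * c) ^ 2 := by rw [h]
        _ = (4 * ((2 * n + 1) * (2 * n + 3))) * ((2 * n + 1) * c ^ 2) := by ring
        _ ≤ (4 * (4 * (n + 1) ^ 2)) * ((2 * n + 1) * c ^ 2) := by
            refine Nat.mul_le_mul_right _ (Nat.mul_le_mul_left _ ?_)
            nlinarith
        _ ≤ (4 * (4 * (n + 1) ^ 2)) * 4 ^ (2 * n) := Nat.mul_le_mul_left _ ih
        _ = (n + 1) ^ 2 * 4 ^ (2 * (n + 1)) := by ring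
    exact Nat.le_of_mul_le_mul_left h1 (by positivity)

lemma middle (b : ℕ) : (b + 1) * b.choose (b / 2) ^ 2 ≤ 4 ^ b := by
  rcases Nat.even_or_odd' b with ⟨n, rfl | rfl⟩
  · rw [Nat.mul_div_cancel_left n (by norm_num)]
    exact central n
  · have h0 : (2 * n + 1) / 2 = n := by omega
    rw [h0]
    have h1 : 2 * (2 * n + 1).choose n = (2 * (n + 1)).choose (n + 1) := by
      have h2 : (2 * (n + 1)).choose (n + 1) =
          (2 * n + 1).choose n + (2 * n + 1).choose (n + 1) := by
        rw [show 2 * (n + 1) = (2 * n + 1) + 1 from by ring, Nat.choose_succ_succ]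
      have h3 : (2 * n + 1).choose (n + 1) = (2 * n + 1).choose n :=
        Nat.choose_symm_of_eq_add (by ring)
      rw [h2, h3]; ring
    have h2 := central (n + 1)
    rw [← h1] at h2
    have h4 : 4 * ((2 * n + 1 + 1) * (2 * n + 1).choose n ^ 2) ≤ 4 * 4 ^ (2 * n + 1) := by
      calc 4 * ((2 * n + 1 + 1) * (2 * n + 1).choose n ^ 2)
          ≤ 4 * ((2 * (n + 1) + 1) * (2 * n + 1).choose n ^ 2) :=
            Nat.mul_le_mul_left _ (Nat.mul_le_mul_right _ (by omega))
        _ = (2 * (n + 1) + 1) * (2 * (2 * n + 1).choose n) ^ 2 := by ring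
        _ ≤ 4 ^ (2 * (n + 1)) := h2
        _ = 4 * 4 ^ (2 * n + 1) := by ring
    exact Nat.le_of_mul_le_mul_left h4 (by norm_num)

section

variable {q : ℕ} {F : Set (Fin q → ℤ)} {B : Finset (Fin q)}
  (hF : ∀ u ∈ F, ∀ v ∈ F, u ≠ v → ∃ j, u j - v j = 1) {L : Type} [LinearOrder L]
  {S : Fin q → L → Set ℤ} (hS : Levels S)

include hF

omit [LinearOrder L] in
/-- Two members with the same parities outside `B` whose difference is never `1` on `B` agree. -/
lemma eq_of_ne {u v : Fin q → ℤ} (hu : u ∈ F) (hv : v ∈ F)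
    (hpar : ∀ i, i ∉ B → (Odd (u i) ↔ Odd (v i))) (hne : ∀ i ∈ B, u i ≠ v i + 1) : u = v := by
  by_contra h
  obtain ⟨j, hj⟩ := hF u hu v hv h
  by_cases hjB : j ∈ B
  · have := hne j hjB
    omega
  · have h1 := hpar j hjB
    rw [Int.odd_iff, Int.odd_iff] at h1
    omega

omit [LinearOrder L] in
/-- `F` is finite as parities determine its members. -/
lemma finite_of_covering : F.Finite := by
  classical
  refine Set.Finite.of_injOn (f := fun u : Fin q → ℤ => (univ.filter fun i => Odd (u i)))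
    (t := Set.univ) (fun _ _ => Set.mem_univ _) ?_ Set.finite_univ
  intro u hu v hv huv
  refine eq_of_ne (B := ∅) hF hu hv (fun i _ => ?_) (by simp)
  have h1 : i ∈ (univ.filter fun i => Odd (u i)) ↔ i ∈ (univ.filter fun i => Odd (v i)) := by
    rw [show (univ.filter fun i => Odd (u i)) = (univ.filter fun i => Odd (v i)) from huv]
  simpa using h1

include hS

/-- Members on one level with the same parities outside `B`: Sperner's theorem on `B`. -/
lemma fibre (t : Finset (Fin q → ℤ)) (ht : ∀ u ∈ t, u ∈ F ∧ OnLevel S B u)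
    (hpar : ∀ u ∈ t, ∀ v ∈ t, ∀ i, i ∉ B → (Odd (u i) ↔ Odd (v i))) :
    t.card ≤ B.card.choose (B.card / 2) := by
  classical
  rcases t.eq_empty_or_nonempty with rfl | ⟨u₀, hu₀⟩
  · simp
  have hall : ∀ u ∈ t, ∃ a : L, ∀ i ∈ B, u i ∈ S i a := fun u hu => (ht u hu).2
  have : Nonempty L := ⟨(hall u₀ hu₀).choose⟩
  choose! a ha using hall
  have hlt : ∀ u ∈ t, ∀ v ∈ t, a u < a v → u = v := by
    intro u hu v hv h
    refine eq_of_ne hF (ht u hu).1 (ht v hv).1 (hpar u hu v hv) fun i hi he => ?_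
    refine hS.noDrop i (a u) (a v) h (v i) ⟨?_, ha v hv i hi⟩
    rw [← he]
    exact ha u hu i hi
  have hsame : ∀ u ∈ t, a u = a u₀ := by
    intro u hu
    rcases lt_trichotomy (a u) (a u₀) with h | h | h
    · rw [hlt u hu u₀ hu₀ h]
    · exact h
    · rw [hlt u₀ hu₀ u hu h]
  set K : (Fin q → ℤ) → Finset B := fun u => univ.filter fun i : B => u i - 1 ∈ S i (a u₀) with hK
  have hsub : ∀ u ∈ t, ∀ v ∈ t, K u ⊆ K v → u = v := by
    intro u hu v hv h
    refine eq_of_ne hF (ht u hu).1 (ht v hv).1 (hpar u hu v hv) fun i hi he => ?_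
    have h1 := ha u hu i hi
    have h2 := ha v hv i hi
    rw [hsame u hu] at h1
    rw [hsame v hv] at h2
    have h3 : (⟨i, hi⟩ : B) ∈ K u := by
      simp only [hK, mem_filter, mem_univ, true_and]
      rw [he, add_sub_cancel_right]
      exact h2
    have h4 := h h3
    simp only [hK, mem_filter, mem_univ, true_and] at h4
    refine hS.noThree i (a u₀) (v i - 1) ⟨h4, ?_, ?_⟩
    · rw [sub_add_cancel]; exact h2
    · rw [show v i - 1 + 2 = u i from by omega]; exact h1
  have hinj : Set.InjOn K (t : Set (Fin q → ℤ)) := by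
    intro u hu v hv h
    exact hsub u (mem_coe.mp hu) v (mem_coe.mp hv) (by rw [h])
  have hanti : IsAntichain (· ⊆ ·) ((t.image K : Finset (Finset B)) : Set (Finset B)) := by
    intro x hx y hy hxy hle
    rw [mem_coe, mem_image] at hx hy
    obtain ⟨u, hu, rfl⟩ := hx
    obtain ⟨v, hv, rfl⟩ := hy
    exact hxy (by rw [hsub u hu v hv hle])
  have h5 := hanti.sperner
  rw [card_image_of_injOn hinj, Fintype.card_coe] at h5
  exact h5

lemma card_bound (B : Finset (Fin q)) (s : Finset (Fin q → ℤ))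
    (hs : ∀ u ∈ s, u ∈ F ∧ OnLevel S B u) :
    s.card ≤ 2 ^ (q - B.card) * B.card.choose (B.card / 2) := by
  classical
  set f : (Fin q → ℤ) → Finset (Fin q) := fun u => (univ \ B).filter fun i => Odd (u i) with hf
  have himg : (s.image f).card ≤ 2 ^ (q - B.card) := by
    have h1 : s.image f ⊆ (univ \ B).powerset := by
      intro t ht
      rw [mem_image] at ht
      obtain ⟨u, -, rfl⟩ := ht
      rw [mem_powerset]
      exact filter_subset _ _
    refine (card_le_card h1).trans ?_
    rw [card_powerset, card_univ_sdiff, Fintype.card_fin]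
  have hfib : ∀ a ∈ s.image f, (s.filter fun x => f x = a).card ≤
      B.card.choose (B.card / 2) := by
    intro a _
    refine fibre hF hS _ (fun u hu => hs u (mem_filter.mp hu).1) ?_
    intro u hu v hv i hi
    have h1 : i ∈ f u ↔ i ∈ f v := by rw [(mem_filter.mp hu).2, (mem_filter.mp hv).2]
    simp only [hf, mem_filter, mem_sdiff, mem_univ, true_and] at h1
    constructor
    · intro h; exact (h1.mp ⟨hi, h⟩).2
    · intro h; exact (h1.mpr ⟨hi, h⟩).2
  calc s.card ≤ B.card.choose (B.card / 2) * (s.image f).card :=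
        card_le_mul_card_image s _ hfib
    _ ≤ B.card.choose (B.card / 2) * 2 ^ (q - B.card) := Nat.mul_le_mul_left _ himg
    _ = _ := Nat.mul_comm _ _

lemma sum_bound (w : ℕ) (a : (Fin q → ℤ) → L) (G : Finset (Fin q → ℤ))
    (hG : (G : Set (Fin q → ℤ)) ⊆ F) :
    ∑ u ∈ G, (count S (a u) u).choose w ≤ 2 ^ (q - w) * w.choose (w / 2) * q.choose w := by
  classical
  have h1 : ∀ u ∈ G, (count S (a u) u).choose w =
      ∑ B ∈ powersetCard w (univ : Finset (Fin q)),
        if B ⊆ (univ.filter fun i => u i ∈ S i (a u)) then 1 else 0 := by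
    intro u _
    have h0 : count S (a u) u = (univ.filter fun i => u i ∈ S i (a u)).card := by
      unfold count
      congr 1
    rw [h0, ← card_powersetCard, ← card_filter]
    congr 1
    ext B
    simp only [mem_powersetCard, mem_filter, subset_univ, true_and]
    tauto
  rw [sum_congr rfl h1, sum_comm]
  have h2 : ∀ B ∈ powersetCard w (univ : Finset (Fin q)),
      (∑ u ∈ G, if B ⊆ (univ.filter fun i => u i ∈ S i (a u)) then 1 else 0) ≤
        2 ^ (q - w) * w.choose (w / 2) := by
    intro B hB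
    rw [← card_filter]
    have hc := (mem_powersetCard.mp hB).2
    rw [← hc]
    refine card_bound hF hS B _ fun u hu => ?_
    rw [mem_filter] at hu
    refine ⟨hG (mem_coe.mpr hu.1), a u, fun i hi => ?_⟩
    have := hu.2 hi
    simpa using this
  calc _ ≤ ∑ B ∈ powersetCard w (univ : Finset (Fin q)), 2 ^ (q - w) * w.choose (w / 2) :=
        sum_le_sum h2
    _ = 2 ^ (q - w) * w.choose (w / 2) * q.choose w := by
        rw [sum_const, card_powersetCard, card_univ, Fintype.card_fin, smul_eq_mul]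
        ring

end

/-- The ratio of `C(q - m, w)` and `C(q, w)`. -/
lemma ratio {q m w : ℕ} (h : 2 * m * w + w ≤ q + 1) : q.choose w ≤ 2 * (q - m).choose w := by
  rcases Nat.eq_zero_or_pos w with rfl | hw
  · simp
  rcases Nat.lt_or_ge q w with hqw | hwq'
  · rw [Nat.choose_eq_zero_of_lt hqw]
    exact Nat.zero_le _
  have hmq : m + w ≤ q + 1 := by nlinarith
  have hmq' : 2 * m + w ≤ q + 1 := by nlinarith
  have key : ∀ i, i ≤ w → ((q + 1 - w : ℝ) - i * m) * (q.choose i : ℝ) ≤
      (q + 1 - w : ℝ) * ((q - m).choose i : ℝ) := by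
    intro i
    induction i with
    | zero => intro _; simp
    | succ i ih =>
      intro hi
      have ih' := ih (by omega)
      have e1 : (q.choose (i + 1) : ℝ) * (i + 1) = (q.choose i : ℝ) * (q - i) := by
        have := Nat.choose_succ_right_eq q i
        have h2 : ((q - i : ℕ) : ℝ) = (q : ℝ) - i := Nat.cast_sub (by omega)
        rw [← h2]; exact_mod_cast this
      have e2 : ((q - m).choose (i + 1) : ℝ) * (i + 1) = ((q - m).choose i : ℝ) * (q - m - i) := by
        have := Nat.choose_succ_right_eq (q - m) i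
        have h2 : ((q - m - i : ℕ) : ℝ) = (q : ℝ) - m - i := by
          rw [Nat.cast_sub (by omega), Nat.cast_sub (by omega)]
        rw [← h2]; exact_mod_cast this
      have hi1 : (0 : ℝ) < (i : ℝ) + 1 := by positivity
      have hwq : (i : ℝ) + 1 ≤ w := by exact_mod_cast hi
      have hqw : (m : ℝ) + w ≤ q + 1 := by exact_mod_cast hmq
      have hm0 : (0 : ℝ) ≤ m := Nat.cast_nonneg m
      have hi0 : (0 : ℝ) ≤ i := Nat.cast_nonneg i
      have hc0 : (0 : ℝ) ≤ (q.choose i : ℝ) := Nat.cast_nonneg _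
      have hpos : (0 : ℝ) ≤ (q : ℝ) - m - i := by linarith
      refine le_of_mul_le_mul_right ?_ hi1
      push_cast
      calc ((q + 1 - w : ℝ) - (i + 1) * m) * (q.choose (i + 1) : ℝ) * (i + 1)
          = ((q + 1 - w : ℝ) - (i + 1) * m) * (q - i) * (q.choose i : ℝ) := by
            rw [mul_assoc, e1]; ring
        _ ≤ ((q : ℝ) - m - i) * (((q + 1 - w : ℝ) - i * m) * (q.choose i : ℝ)) := by
            have : ((q : ℝ) - m - i) * ((q + 1 - w : ℝ) - i * m) -
                ((q + 1 - w : ℝ) - (i + 1) * m) * (q - i) = m * ((w - 1 - i) + i * m) := by ring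
            have h5 : (0 : ℝ) ≤ m * ((w - 1 - i) + i * m) := by
              refine mul_nonneg hm0 (add_nonneg (by linarith) (by positivity))
            nlinarith [mul_nonneg h5 hc0]
        _ ≤ ((q : ℝ) - m - i) * ((q + 1 - w : ℝ) * ((q - m).choose i : ℝ)) :=
            mul_le_mul_of_nonneg_left ih' hpos
        _ = (q + 1 - w : ℝ) * ((q - m).choose (i + 1) : ℝ) * (i + 1) := by
            rw [mul_assoc (q + 1 - w : ℝ), e2]; ring
  have hk := key w le_rfl
  have hr : (2 : ℝ) * m * w + w ≤ q + 1 := by exact_mod_cast h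
  have hD : (0 : ℝ) < (q : ℝ) + 1 - w := by
    have : (w : ℝ) ≤ (q : ℝ) := by exact_mod_cast hwq'
    linarith
  have hc : (0 : ℝ) ≤ (q.choose w : ℝ) := Nat.cast_nonneg _
  have h7 : ((q : ℝ) + 1 - w) * (q.choose w : ℝ) ≤
      ((q : ℝ) + 1 - w) * (2 * ((q - m).choose w : ℝ)) := by
    nlinarith [mul_nonneg (show (0 : ℝ) ≤ (q + 1 - w) - 2 * (w * m) by nlinarith) hc]
  have h8 := le_of_mul_le_mul_left h7 hD
  exact_mod_cast h8

/-- The pairs `{c i + a, c i + a + 1}` form a system of levels. -/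
lemma levels_pair {q : ℕ} (c : Fin q → ℤ) :
    Levels (fun (i : Fin q) (a : ℤ) => ({c i + a, c i + a + 1} : Set ℤ)) := by
  refine ⟨fun i a n h => ?_, fun i a b hab n h => ?_⟩
  · obtain ⟨h1, -, h3⟩ := h
    simp only [Set.mem_insert_iff, Set.mem_singleton_iff] at h1 h3
    omega
  · obtain ⟨h1, h2⟩ := h
    simp only [Set.mem_insert_iff, Set.mem_singleton_iff] at h1 h2
    omega

lemma sqrt_bound {q b N : ℕ} (h : (b + 1) * N ^ 2 ≤ 4 ^ q) : (N : ℝ) ≤ 2 ^ q / √(b + 1) := by
  have h3 : (0 : ℝ) < √(b + 1) := Real.sqrt_pos.mpr (by positivity)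
  rw [le_div_iff₀ h3]
  have h4 : ((N : ℝ) * √(b + 1)) ^ 2 ≤ (2 ^ q) ^ 2 := by
    rw [mul_pow, Real.sq_sqrt (by positivity)]
    have h5 : (((b + 1) * N ^ 2 : ℕ) : ℝ) ≤ ((4 ^ q : ℕ) : ℝ) := by exact_mod_cast h
    push_cast at h5
    calc (N : ℝ) ^ 2 * (b + 1) = (b + 1) * N ^ 2 := by ring
      _ ≤ 4 ^ q := h5
      _ = (2 ^ q) ^ 2 := by rw [← pow_mul, Nat.mul_comm, pow_mul]; norm_num
  exact (pow_le_pow_iff_left₀ (by positivity) (by positivity) (by norm_num)).mp h4

lemma square_bound {q b : ℕ} (hb : b ≤ q) :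
    (b + 1) * (2 ^ (q - b) * b.choose (b / 2)) ^ 2 ≤ 4 ^ q := by
  calc (b + 1) * (2 ^ (q - b) * b.choose (b / 2)) ^ 2
      = (2 ^ 2) ^ (q - b) * ((b + 1) * b.choose (b / 2) ^ 2) := by
        rw [← pow_mul, Nat.mul_comm 2 (q - b), pow_mul]; ring
    _ ≤ (2 ^ 2) ^ (q - b) * 4 ^ b := Nat.mul_le_mul_left _ (middle _)
    _ = 4 ^ q := by rw [show (2 : ℕ) ^ 2 = 4 from by norm_num, ← pow_add, Nat.sub_add_cancel hb]

/-- Let `1 ∈ A`, let `F` be an `A`-covering family in `ℤ ^ q` and let `S` be a system of levels,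
for instance `S i a = {a, a + 1}` with `a ∈ ℤ`.  Then `F` is finite;
(1) for every set `B` of `b` coordinates at most `2 ^ (q - b) * C(b, b / 2)` members, and so at
most `2 ^ q / √(b + 1)` members, take on `B` values from one level (which may depend on the member);
(2) for every choice of levels `a u` the sum over the members `u` of `C(n u, w)`, where `n u` is
the number of coordinates of `u` with a value from the level `a u`, is at most
`2 ^ (q - w) * C(w, w / 2) * C(q, w)`;
(3) for every `m` at most `2 ^ (q + 1) * √((2 m + 1) / (q + 1))` members have all but at most `m`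
coordinates on one level;
(4) for a single level, that is for sets `T i` without three consecutive integers, and `b < q` the
bound in (1) is `2 ^ (q - b - 1) * C(b + 1, (b + 1) / 2)`;
(5) if `c > 0`, `w < q` is odd, `c ^ 2 (w + 2) ≥ 4` and `F` has at least `c 2 ^ q` members, then for
all but fewer than `w` coordinates `i` every set meeting all triples of consecutive integers
contains `u i` for at least `|F| / (2 w)` members `u`. -/
theorem result {q : ℕ} :
    (∀ (A : Set ℤ) (F : Set (Fin q → ℤ)), (1 : ℤ) ∈ A → IsCoveringFamily A F →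
      F.Finite ∧ ∀ (L : Type) (_ : LinearOrder L) (S : Fin q → L → Set ℤ), Levels S →
      (∀ B : Finset (Fin q),
        {u | u ∈ F ∧ OnLevel S B u}.ncard ≤ 2 ^ (q - B.card) * B.card.choose (B.card / 2) ∧
        ({u | u ∈ F ∧ OnLevel S B u}.ncard : ℝ) ≤ 2 ^ q / √(B.card + 1)) ∧
      (∀ (w : ℕ) (a : (Fin q → ℤ) → L) (G : Finset (Fin q → ℤ)), (G : Set (Fin q → ℤ)) ⊆ F →
        ∑ u ∈ G, (count S (a u) u).choose w ≤ 2 ^ (q - w) * w.choose (w / 2) * q.choose w) ∧
      (∀ m : ℕ, ({u | u ∈ F ∧ ∃ a, q ≤ count S a u + m}.ncard : ℝ) ≤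
        2 ^ (q + 1) * √((2 * m + 1) / (q + 1)))) ∧
    (∀ (A : Set ℤ) (F : Set (Fin q → ℤ)), (1 : ℤ) ∈ A → IsCoveringFamily A F →
      (∀ (W : Finset (Fin q)) (T : Fin q → Set ℤ), W.card < q → (∀ i ∈ W, NoThree (T i)) →
        {u | u ∈ F ∧ ∀ i ∈ W, u i ∈ T i}.ncard ≤
          2 ^ (q - (W.card + 1)) * (W.card + 1).choose ((W.card + 1) / 2)) ∧
      (∀ (c : ℝ) (w : ℕ), 0 < c → Odd w → w < q → 4 ≤ c ^ 2 * (w + 2) →
        c * 2 ^ q ≤ F.ncard →
        ∃ B : Finset (Fin q), B.card < w ∧ ∀ i ∉ B, ∀ T : Set ℤ, MeetsTriples T →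
          (F.ncard : ℝ) ≤ 2 * w * {u | u ∈ F ∧ u i ∈ T}.ncard)) ∧
    (∀ c : Fin q → ℤ, Levels (fun (i : Fin q) (a : ℤ) => ({c i + a, c i + a + 1} : Set ℤ))) := by
  classical
  refine ⟨fun A F hA hF => ?_, fun A F hA hF => ?_, levels_pair⟩
  swap
  · obtain ⟨-, h1, -, h3⟩ := Pool.Agent.Lib.MP_f4ab27_co_NT.main q A hA F hF
    exact ⟨h1, h3⟩
  have hF' : ∀ u ∈ F, ∀ v ∈ F, u ≠ v → ∃ j, u j - v j = 1 := by
    intro u hu v hv h
    obtain ⟨j, hj⟩ := hF u hu v hv h 1 hA
    exact ⟨j, by simpa using hj⟩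
  have hfin := finite_of_covering hF'
  refine ⟨hfin, fun L _ S hS => ⟨fun B => ?_, fun w a G hG => sum_bound hF' hS w a G hG,
    fun m => ?_⟩⟩
  · have hf : {u | u ∈ F ∧ OnLevel S B u}.Finite := hfin.subset fun u hu => hu.1
    have h1 : {u | u ∈ F ∧ OnLevel S B u}.ncard ≤
        2 ^ (q - B.card) * B.card.choose (B.card / 2) := by
      rw [Set.ncard_eq_toFinset_card _ hf]
      exact card_bound hF' hS B _ fun u hu => hf.mem_toFinset.mp hu
    refine ⟨h1, sqrt_bound ?_⟩
    have hb : B.card ≤ q := by simpa using card_le_univ B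
    exact (Nat.mul_le_mul_left _ (Nat.pow_le_pow_left h1 2)).trans (square_bound hb)
  · have hf : {u | u ∈ F ∧ ∃ a, q ≤ count S a u + m}.Finite := hfin.subset fun u hu => hu.1
    rw [Set.ncard_eq_toFinset_card _ hf]
    set T := hf.toFinset with hT
    rcases T.eq_empty_or_nonempty with h0 | ⟨u₀, hu₀⟩
    · rw [h0]
      simp only [card_empty, Nat.cast_zero]
      positivity
    have hall : ∀ u ∈ T, ∃ a, q ≤ count S a u + m := fun u hu =>
      (hf.mem_toFinset.mp hu).2
    have : Nonempty L := ⟨(hall u₀ hu₀).choose⟩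
    choose! a ha using hall
    set w := q / (2 * m + 1) with hw
    have hw1 : (2 * m + 1) * w ≤ q := Nat.mul_div_le q (2 * m + 1)
    have hw2 : q < (2 * m + 1) * (w + 1) := by
      rw [hw]; exact Nat.lt_mul_div_succ q (by omega)
    have hwq : w ≤ q := Nat.div_le_self _ _
    have hs : T.card * (q - m).choose w ≤ 2 ^ (q - w) * w.choose (w / 2) * q.choose w := by
      refine le_trans ?_ (sum_bound hF' hS w a T fun u hu =>
        (hf.mem_toFinset.mp (mem_coe.mp hu)).1)
      rw [← smul_eq_mul, ← sum_const]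
      exact sum_le_sum fun u hu => Nat.choose_le_choose _ (by have := ha u hu; omega)
    have hr : q.choose w ≤ 2 * (q - m).choose w := ratio (by nlinarith)
    have hpos : 0 < (q - m).choose w := by
      have := Nat.choose_pos hwq
      omega
    have h1 : T.card ≤ 2 * (2 ^ (q - w) * w.choose (w / 2)) := by
      refine Nat.le_of_mul_le_mul_right ?_ hpos
      calc T.card * (q - m).choose w ≤ 2 ^ (q - w) * w.choose (w / 2) * q.choose w := hs
        _ ≤ 2 ^ (q - w) * w.choose (w / 2) * (2 * (q - m).choose w) := Nat.mul_le_mul_left _ hr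
        _ = 2 * (2 ^ (q - w) * w.choose (w / 2)) * (q - m).choose w := by ring
    have h2 := sqrt_bound (square_bound hwq)
    push_cast at h2
    have h3 : (T.card : ℝ) ≤ 2 * (2 ^ q / √(w + 1)) := by
      calc (T.card : ℝ) ≤ ((2 * (2 ^ (q - w) * w.choose (w / 2)) : ℕ) : ℝ) := by
            exact_mod_cast h1
        _ = 2 * (2 ^ (q - w) * (w.choose (w / 2) : ℝ)) := by push_cast; ring
        _ ≤ 2 * (2 ^ q / √(w + 1)) := mul_le_mul_of_nonneg_left h2 (by norm_num)
    refine h3.trans ?_
    have h4 : ((q : ℝ) + 1) / (2 * m + 1) ≤ w + 1 := by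
      rw [div_le_iff₀ (by positivity)]
      have : ((q + 1 : ℕ) : ℝ) ≤ (((2 * m + 1) * (w + 1) : ℕ) : ℝ) := by exact_mod_cast hw2
      push_cast at this
      linarith
    have h5 : √((2 * (m : ℝ) + 1) / (q + 1)) = 1 / √(((q : ℝ) + 1) / (2 * m + 1)) := by
      rw [← Real.sqrt_one, ← Real.sqrt_div (by norm_num), Real.sqrt_one, one_div_div]
    rw [h5]
    have h6 : √(((q : ℝ) + 1) / (2 * m + 1)) ≤ √((w : ℝ) + 1) := Real.sqrt_le_sqrt h4
    have h7 : 0 < √(((q : ℝ) + 1) / (2 * m + 1)) := Real.sqrt_pos.mpr (by positivity)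
    have h8 : 1 / √((w : ℝ) + 1) ≤ 1 / √(((q : ℝ) + 1) / (2 * m + 1)) :=
      one_div_le_one_div_of_le h7 h6
    calc 2 * (2 ^ q / √((w : ℝ) + 1)) = 2 ^ (q + 1) * (1 / √((w : ℝ) + 1)) := by
          rw [pow_succ]; ring
      _ ≤ 2 ^ (q + 1) * (1 / √(((q : ℝ) + 1) / (2 * m + 1))) :=
          mul_le_mul_of_nonneg_left h8 (by positivity)

end Pool.Agent.Results.MP_f4ab27_co.FlatMembers
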