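import Mathlib

/-!
Families of integer vectors whose differences contain both `1` and `-1` as a coordinate have at
most `2 ^ (q - 2) + 2 ^ (q / 2 - 1)` members.
-/

set_option autoImplicit false

namespace Pool.Agent.Results.MP_f4ab27_co.QuarterBound

open Complex Finset

/-- The vector `w` is `A`-covering: every `a ∈ A` occurs as a coordinate of `w`. -/
def IsCovering {q : ℕ} (A : Set ℤ) (w : Fin q → ℤ) : Prop := ∀ a ∈ A, ∃ j, w j = a

/-- The family `F` is `A`-covering: for any two distinct members `u`, `v` the difference `u - v`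
is `A`-covering. -/
def IsCoveringFamily {q : ℕ} (A : Set ℤ) (F : Set (Fin q → ℤ)) : Prop :=
  ∀ u ∈ F, ∀ v ∈ F, u ≠ v → IsCovering A (u - v)

/-- The character value `∏_{j ∈ S} i ^ {u j}`. -/
noncomputable def chi {q : ℕ} (u : Fin q → ℤ) (S : Finset (Fin q)) : ℂ := ∏ j ∈ S, I ^ (u j)

lemma conj_I_zpow (n : ℤ) : (starRingEnd ℂ) (I ^ n) = I ^ (-n) := by
  rw [map_zpow₀, conj_I, zpow_neg, ← inv_zpow, inv_I]

lemma chi_mul_conj {q : ℕ} (u v : Fin q → ℤ) (S : Finset (Fin q)) :
    I ^ S.card * (chi u S * (starRingEnd ℂ) (chi v S)) = ∏ j ∈ S, (I * I ^ (u j - v j)) := by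
  unfold chi
  rw [map_prod, ← Finset.prod_mul_distrib, ← Finset.prod_const, ← Finset.prod_mul_distrib]
  refine Finset.prod_congr rfl fun j _ => ?_
  rw [conj_I_zpow, ← zpow_add₀ I_ne_zero, sub_eq_add_neg]

lemma sum_chi {q : ℕ} (u v : Fin q → ℤ) :
    ∑ S : Finset (Fin q), I ^ S.card * (chi u S * (starRingEnd ℂ) (chi v S)) =
      ∏ j, (1 + I * I ^ (u j - v j)) := by
  rw [Finset.prod_one_add, Finset.powerset_univ]
  exact Finset.sum_congr rfl fun S _ => chi_mul_conj u v S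

lemma prod_eq_zero_of_covering {q : ℕ} {u v : Fin q → ℤ} (h : ∃ j, (u - v) j = 1) :
    ∏ j, (1 + I * I ^ (u j - v j)) = 0 := by
  obtain ⟨j, hj⟩ := h
  refine Finset.prod_eq_zero (Finset.mem_univ j) ?_
  rw [Pi.sub_apply] at hj
  rw [hj, zpow_one, I_mul_I]
  ring

/-- the rotation `(-i)^m (1+i)^q` has real part `2^m` when `m = q / 2`. -/
lemma rot_re (q : ℕ) : (((-I) ^ (q / 2) * (1 + I) ^ q : ℂ)).re = 2 ^ (q / 2) := by
  have h2 : (-I) * (1 + I) ^ 2 = 2 := by
    have : (1 + I) ^ 2 = 2 * I := by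
      rw [add_sq, I_sq]; ring
    rw [this]
    linear_combination (-2 : ℂ) * I_sq
  rcases Nat.even_or_odd' q with ⟨m, rfl | rfl⟩
  · have : 2 * m / 2 = m := by omega
    rw [this, pow_mul, ← mul_pow, h2]
    norm_cast
  · have : (2 * m + 1) / 2 = m := by omega
    rw [this, pow_succ (1 + I), pow_mul, ← mul_assoc, ← mul_pow, h2]
    have h3 : ((2 : ℂ) ^ m * (1 + I)) = ((2 ^ m : ℝ) : ℂ) * (1 + I) := by push_cast; ring
    rw [h3, re_ofReal_mul]
    simp

lemma I_pow_four_mul_add (a b : ℕ) : I ^ (4 * a + b) = I ^ b := by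
  rw [pow_add, pow_mul, I_pow_four, one_pow, one_mul]

lemma neg_I_pow_mul (m k : ℕ) : (-I) ^ m * I ^ k = I ^ ((3 * m + k) % 4) := by
  have h : (-I : ℂ) = I ^ 3 := by rw [I_pow_three]
  rw [h, ← pow_mul, ← pow_add]
  conv_lhs => rw [← Nat.div_add_mod (3 * m + k) 4]
  rw [I_pow_four_mul_add]

lemma phase_re_nonpos (m k : ℕ) (h : k % 4 ≠ m % 4) : ((-I) ^ m * I ^ k : ℂ).re ≤ 0 := by
  rw [neg_I_pow_mul]
  have h1 : (3 * m + k) % 4 = 1 ∨ (3 * m + k) % 4 = 2 ∨ (3 * m + k) % 4 = 3 := by omega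
  rcases h1 with h1 | h1 | h1 <;> rw [h1]
  · simp
  · simp
  · rw [I_pow_three]; simp

/-- The number of subsets of `Fin q` whose size is congruent to `q / 2` modulo `4`. -/
noncomputable def cnt (q : ℕ) : ℕ :=
  (Finset.univ.filter fun S : Finset (Fin q) => S.card % 4 = (q / 2) % 4).card

lemma indicator_eq (m k : ℕ) :
    (if k % 4 = m % 4 then (4 : ℝ) else 0) =
      1 + (-1) ^ m * (-1) ^ k + 2 * ((-I) ^ m * I ^ k : ℂ).re := by
  rw [neg_I_pow_mul, ← pow_add]
  have h1 : (3 * m + k) % 4 = 0 ∨ (3 * m + k) % 4 = 1 ∨ (3 * m + k) % 4 = 2 ∨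
      (3 * m + k) % 4 = 3 := by omega
  rcases h1 with h1 | h1 | h1 | h1 <;> rw [h1]
  · rw [if_pos (by omega), Even.neg_one_pow (by rw [Nat.even_iff]; omega)]
    simp; norm_num
  · rw [if_neg (by omega), Odd.neg_one_pow (by rw [Nat.odd_iff]; omega)]
    simp
  · rw [if_neg (by omega), Even.neg_one_pow (by rw [Nat.even_iff]; omega)]
    simp; norm_num
  · rw [if_neg (by omega), Odd.neg_one_pow (by rw [Nat.odd_iff]; omega), I_pow_three]
    simp

lemma four_mul_cnt (q : ℕ) (hq : 1 ≤ q) : 4 * cnt q = 2 ^ q + 2 * 2 ^ (q / 2) := by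
  have h1 : ((4 * cnt q : ℕ) : ℝ) =
      ∑ S : Finset (Fin q), (if S.card % 4 = (q / 2) % 4 then (4 : ℝ) else 0) := by
    rw [← Finset.sum_filter, Finset.sum_const, nsmul_eq_mul]
    unfold cnt
    push_cast
    ring
  have h2 : ∑ S : Finset (Fin q), (1 : ℝ) = 2 ^ q := by
    rw [Finset.sum_const, Finset.card_univ, Fintype.card_finset, Fintype.card_fin]
    simp
  have h3 : ∑ S : Finset (Fin q), ((-1 : ℝ)) ^ S.card = 0 := by
    have := Finset.prod_one_add (s := (Finset.univ : Finset (Fin q))) (f := fun _ => (-1 : ℝ))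
    simp only [Finset.prod_const, Finset.powerset_univ] at this
    rw [← this]
    simp
    omega
  have h4 : ∑ S : Finset (Fin q), I ^ S.card = (1 + I) ^ q := by
    have := Finset.prod_one_add (s := (Finset.univ : Finset (Fin q))) (f := fun _ => I)
    simp only [Finset.prod_const, Finset.powerset_univ] at this
    rw [← this]
    simp
  have h5 : ∑ S : Finset (Fin q), ((-I) ^ (q / 2) * I ^ S.card : ℂ).re = 2 ^ (q / 2) := by
    rw [← Complex.re_sum, ← Finset.mul_sum, h4, rot_re]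
  have h6 : ((4 * cnt q : ℕ) : ℝ) = 2 ^ q + 2 * 2 ^ (q / 2) := by
    rw [h1]
    simp_rw [indicator_eq]
    rw [Finset.sum_add_distrib, Finset.sum_add_distrib, ← Finset.mul_sum, ← Finset.mul_sum,
      h2, h3, h5]
    ring
  exact_mod_cast h6

lemma cnt_eq (q : ℕ) (hq : 2 ≤ q) : cnt q = 2 ^ (q - 2) + 2 ^ (q / 2 - 1) := by
  have h := four_mul_cnt q (by omega)
  obtain ⟨a, rfl⟩ : ∃ a, q = a + 2 := ⟨q - 2, by omega⟩
  have h1 : (a + 2) / 2 = a / 2 + 1 := by omega
  rw [h1] at h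
  rw [h1]
  have h2 : a + 2 - 2 = a := by omega
  have h3 : a / 2 + 1 - 1 = a / 2 := by omega
  rw [h2, h3]
  rw [pow_add, pow_succ 2 (a / 2)] at h
  omega

/-- The finite version of the bound. -/
lemma card_le_cnt {q : ℕ} (F : Finset (Fin q → ℤ))
    (hF : ∀ u ∈ F, ∀ v ∈ F, u ≠ v → ∃ j, (u - v) j = 1) : F.card ≤ cnt q := by
  classical
  by_contra hlt
  rw [not_le] at hlt
  set m := q / 2 with hm
  let T : (F → ℂ) →ₗ[ℂ] ({S : Finset (Fin q) // S.card % 4 = m % 4} → ℂ) :=
    { toFun := fun y S => ∑ u : F, y u * chi u.1 S.1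
      map_add' := by
        intro x y
        ext S
        simp only [Pi.add_apply, add_mul, Finset.sum_add_distrib]
      map_smul' := by
        intro c y
        ext S
        simp only [Pi.smul_apply, smul_eq_mul, RingHom.id_apply, Finset.mul_sum, mul_assoc] }
  have hker : LinearMap.ker T ≠ ⊥ := by
    apply LinearMap.ker_ne_bot_of_finrank_lt
    rw [Module.finrank_pi, Module.finrank_pi, Fintype.card_coe, Fintype.card_subtype]
    exact hlt
  obtain ⟨y, hyk, hy0⟩ := (Submodule.ne_bot_iff _).1 hker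
  have hy : ∀ S : Finset (Fin q), S.card % 4 = m % 4 → ∑ u : F, y u * chi u.1 S = 0 := by
    intro S hS
    have := congrFun (LinearMap.mem_ker.1 hyk) ⟨S, hS⟩
    simpa [T] using this
  have hpos : 0 < ∑ u : F, Complex.normSq (y u) := by
    obtain ⟨u, hu⟩ : ∃ u, y u ≠ 0 := by
      by_contra hcon
      exact hy0 (funext fun u => by_contra fun hu => hcon ⟨u, hu⟩)
    exact Finset.sum_pos' (fun _ _ => Complex.normSq_nonneg _)
      ⟨u, Finset.mem_univ _, Complex.normSq_pos.2 hu⟩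
  -- the main identity
  have hid : ∑ S : Finset (Fin q), I ^ S.card *
      ((∑ u : F, y u * chi u.1 S) * (starRingEnd ℂ) (∑ u : F, y u * chi u.1 S)) =
      (1 + I) ^ q * ((∑ u : F, Complex.normSq (y u) : ℝ) : ℂ) := by
    have e1 : ∀ S : Finset (Fin q), I ^ S.card *
        ((∑ u : F, y u * chi u.1 S) * (starRingEnd ℂ) (∑ u : F, y u * chi u.1 S)) =
        ∑ u : F, ∑ v : F, (y u * (starRingEnd ℂ) (y v)) *
          (I ^ S.card * (chi u.1 S * (starRingEnd ℂ) (chi v.1 S))) := by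
      intro S
      rw [map_sum, Finset.sum_mul_sum, Finset.mul_sum]
      refine Finset.sum_congr rfl fun u _ => ?_
      rw [Finset.mul_sum]
      refine Finset.sum_congr rfl fun v _ => ?_
      rw [map_mul]
      ring
    simp_rw [e1]
    rw [Finset.sum_comm]
    have e2 : ∀ u : F, ∑ S : Finset (Fin q), ∑ v : F, (y u * (starRingEnd ℂ) (y v)) *
          (I ^ S.card * (chi u.1 S * (starRingEnd ℂ) (chi v.1 S))) =
          (1 + I) ^ q * ((Complex.normSq (y u) : ℝ) : ℂ) := by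
      intro u
      rw [Finset.sum_comm]
      simp_rw [← Finset.mul_sum, sum_chi]
      rw [Finset.sum_eq_single u]
      · simp only [sub_self, zpow_zero, mul_one, Finset.prod_const, Finset.card_univ,
          Fintype.card_fin]
        rw [Complex.mul_conj]
        ring
      · intro v _ hvu
        rw [prod_eq_zero_of_covering (hF u.1 u.2 v.1 v.2 (fun h => hvu (Subtype.ext h.symm)))]
        ring
      · intro h
        exact absurd (Finset.mem_univ u) h
    simp_rw [e2]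
    rw [← Finset.mul_sum]
    push_cast
    rfl
  have hre := congrArg (fun z : ℂ => ((-I) ^ m * z).re) hid
  beta_reduce at hre
  rw [← mul_assoc, mul_comm _ (((∑ u : F, Complex.normSq (y u) : ℝ) : ℂ)), re_ofReal_mul,
    hm, rot_re, ← hm, Finset.mul_sum, Complex.re_sum] at hre
  have hle : ∑ S : Finset (Fin q), ((-I) ^ m * (I ^ S.card *
      ((∑ u : F, y u * chi u.1 S) * (starRingEnd ℂ) (∑ u : F, y u * chi u.1 S)))).re ≤ 0 := by
    refine Finset.sum_nonpos fun S _ => ?_
    by_cases hS : S.card % 4 = m % 4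
    · rw [hy S hS]
      simp
    · rw [← mul_assoc, Complex.mul_conj, mul_comm, re_ofReal_mul]
      exact mul_nonpos_of_nonneg_of_nonpos (Complex.normSq_nonneg _) (phase_re_nonpos m _ hS)
  rw [hre] at hle
  have : 0 < (∑ u : F, Complex.normSq (y u)) * 2 ^ m := by positivity
  linarith

/-- For `q ≥ 2` and any set `A` of integers with `1 ∈ A` (in particular for `A = {1, -1}` and for
`A = {-1, 0, 1}`), every `A`-covering family of vectors in `ℤ^q` is finite and has at most
`2 ^ (q - 2) + 2 ^ (q / 2 - 1)` members. -/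
theorem result (q : ℕ) (hq : 2 ≤ q) (A : Set ℤ) (h1 : (1 : ℤ) ∈ A)
    (F : Set (Fin q → ℤ)) (hF : IsCoveringFamily A F) :
    F.Finite ∧ F.ncard ≤ 2 ^ (q - 2) + 2 ^ (q / 2 - 1) := by
  have key : ∀ G : Finset (Fin q → ℤ), (↑G : Set (Fin q → ℤ)) ⊆ F →
      G.card ≤ 2 ^ (q - 2) + 2 ^ (q / 2 - 1) := by
    intro G hG
    rw [← cnt_eq q hq]
    exact card_le_cnt G fun u hu v hv huv => hF u (hG hu) v (hG hv) huv 1 h1
  have hfin : F.Finite := by
    by_contra hinf
    obtain ⟨G, hG, hc⟩ := Set.Infinite.exists_subset_card_eq hinf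
      (2 ^ (q - 2) + 2 ^ (q / 2 - 1) + 1)
    have := key G hG
    omega
  refine ⟨hfin, ?_⟩
  rw [Set.ncard_eq_toFinset_card F hfin]
  exact key _ (by simp)

end Pool.Agent.Results.MP_f4ab27_co.QuarterBound
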