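import Mathlib

/-!
Families of vectors over `ℤ` (or over `ℤ/3`) such that any two distinct members have both `0` and
`1` among the coordinates of their difference have at most `(1/6 + o(1)) 2 ^ q` members.
-/

set_option autoImplicit false

namespace Pool.Agent.Results.MP_f4ab27_co.SixthBound

open Complex Finset

/-- The vector `w` over `R` is `A`-covering: every `a ∈ A` occurs as a coordinate of `w`. -/
def IsCovering {R : Type} {q : ℕ} (A : Set R) (w : Fin q → R) : Prop := ∀ a ∈ A, ∃ j, w j = a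

/-- The family `F` is `A`-covering: for any two distinct members `u`, `v` (in both orders) the
difference `u - v` is `A`-covering. -/
def IsCoveringFamily {R : Type} [Ring R] {q : ℕ} (A : Set R) (F : Set (Fin q → R)) : Prop :=
  ∀ u ∈ F, ∀ v ∈ F, u ≠ v → IsCovering A (u - v)

/-- The primitive sixth root of unity `(1 + i √3) / 2`. -/
noncomputable def om : ℂ := ⟨1 / 2, √3 / 2⟩

lemma sqrt3 : √3 * √3 = 3 := Real.mul_self_sqrt (by norm_num)

lemma om_sq : om ^ 2 = om - 1 := by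
  have h := sqrt3
  apply Complex.ext
  · simp only [om, pow_two, Complex.mul_re, Complex.sub_re, Complex.one_re]
    nlinarith
  · simp only [om, pow_two, Complex.mul_im, Complex.sub_im, Complex.one_im]
    ring

lemma om_cube : om ^ 3 = -1 := by
  linear_combination (om + 1) * om_sq

lemma om_six : om ^ 6 = 1 := by
  have : om ^ 6 = (om ^ 3) ^ 2 := by ring
  rw [this, om_cube]
  norm_num

lemma om_ne_zero : om ≠ 0 := by
  intro h
  have := om_cube
  rw [h] at this
  norm_num at this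

/-- the conjugate of `om`. -/
noncomputable def ob : ℂ := 1 - om

lemma conj_om : (starRingEnd ℂ) om = ob := by
  apply Complex.ext
  · simp only [om, ob, Complex.conj_re, Complex.sub_re, Complex.one_re]
    norm_num
  · simp only [om, ob, Complex.conj_im, Complex.sub_im, Complex.one_im]
    ring

lemma ob_mul_om : ob * om = 1 := by
  unfold ob
  linear_combination -om_sq

lemma ob_eq : ob = om ^ 5 := by
  unfold ob
  linear_combination (-(om ^ 3) - om ^ 2 + 1) * om_sq

lemma om_re : om.re = 1 / 2 := rfl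

lemma ob_re : ob.re = 1 / 2 := by
  simp only [ob, om, Complex.sub_re, Complex.one_re]
  norm_num

lemma om2_re : (om ^ 2).re = -1 / 2 := by
  rw [om_sq, Complex.sub_re, om_re, Complex.one_re]
  norm_num

lemma om4_re : (om ^ 4).re = -1 / 2 := by
  have : om ^ 4 = -om := by linear_combination om * om_cube
  rw [this, Complex.neg_re, om_re]
  norm_num

lemma om5_re : (om ^ 5).re = 1 / 2 := by
  rw [← ob_eq, ob_re]

lemma om3_re : (om ^ 3).re = -1 := by
  rw [om_cube]; simp

/-- The primitive cube root of unity `om ^ 2`. -/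
noncomputable def rho : ℂ := om ^ 2

lemma rho_ne_zero : rho ≠ 0 := pow_ne_zero _ om_ne_zero

lemma rho_cube : rho ^ 3 = 1 := by
  have : rho ^ 3 = om ^ 6 := by unfold rho; ring
  rw [this, om_six]

lemma om_mul_rho : om * rho = -1 := by
  unfold rho
  linear_combination om_cube

lemma conj_rho : (starRingEnd ℂ) rho = rho⁻¹ := by
  apply eq_inv_of_mul_eq_one_left
  unfold rho
  rw [map_pow, conj_om, ← mul_pow, ob_mul_om, one_pow]

lemma conj_rho_zpow (n : ℤ) : (starRingEnd ℂ) (rho ^ n) = rho ^ (-n) := by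
  rw [map_zpow₀, conj_rho, zpow_neg, inv_zpow]

lemma rho_zpow_three_mul (n : ℤ) : rho ^ (3 * n) = 1 := by
  rw [zpow_mul]
  have : rho ^ (3 : ℤ) = 1 := by
    have := rho_cube
    exact_mod_cast this
  rw [this, one_zpow]

/-- The character value `∏_{j ∈ S} ρ ^ {u j}`. -/
noncomputable def chi {q : ℕ} (u : Fin q → ℤ) (S : Finset (Fin q)) : ℂ := ∏ j ∈ S, rho ^ (u j)

lemma chi_mul_conj {q : ℕ} (c : ℂ) (u v : Fin q → ℤ) (S : Finset (Fin q)) :
    c ^ S.card * (chi u S * (starRingEnd ℂ) (chi v S)) = ∏ j ∈ S, (c * rho ^ (u j - v j)) := by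
  unfold chi
  rw [map_prod, ← Finset.prod_mul_distrib, ← Finset.prod_const, ← Finset.prod_mul_distrib]
  refine Finset.prod_congr rfl fun j _ => ?_
  rw [conj_rho_zpow, ← zpow_add₀ rho_ne_zero, sub_eq_add_neg]

lemma sum_chi {q : ℕ} (c : ℂ) (u v : Fin q → ℤ) :
    ∑ S : Finset (Fin q), c ^ S.card * (chi u S * (starRingEnd ℂ) (chi v S)) =
      ∏ j, (1 + c * rho ^ (u j - v j)) := by
  rw [Finset.prod_one_add, Finset.powerset_univ]
  exact Finset.sum_congr rfl fun S _ => chi_mul_conj c u v S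

lemma prod_om_eq_zero {q : ℕ} {u v : Fin q → ℤ} (h : ∃ j n, (u - v) j = 3 * n + 1) :
    ∏ j, (1 + om * rho ^ (u j - v j)) = 0 := by
  obtain ⟨j, n, hj⟩ := h
  refine Finset.prod_eq_zero (Finset.mem_univ j) ?_
  rw [Pi.sub_apply] at hj
  rw [hj, zpow_add₀ rho_ne_zero, rho_zpow_three_mul, zpow_one, one_mul, om_mul_rho]
  ring

lemma prod_neg_eq_zero {q : ℕ} {u v : Fin q → ℤ} (h : ∃ j n, (u - v) j = 3 * n) :
    ∏ j, (1 + (-1) * rho ^ (u j - v j)) = 0 := by
  obtain ⟨j, n, hj⟩ := h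
  refine Finset.prod_eq_zero (Finset.mem_univ j) ?_
  rw [Pi.sub_apply] at hj
  rw [hj, rho_zpow_three_mul]
  ring

lemma one_add_om_sq : (1 + om) ^ 2 = 3 * om := by
  linear_combination om_sq

/-- The rotation `ob ^ (q / 2 + 1) * (1 + om) ^ q`. -/
lemma rot_eq_even (m : ℕ) : ob ^ (m + 1) * (1 + om) ^ (2 * m) = 3 ^ m * ob := by
  rw [pow_mul, one_add_om_sq, mul_pow, pow_succ]
  have : (ob * om) ^ m = 1 := by rw [ob_mul_om, one_pow]
  rw [mul_pow] at this
  linear_combination (3 ^ m * ob) * this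

lemma rot_eq_odd (m : ℕ) : ob ^ (m + 1) * (1 + om) ^ (2 * m + 1) = 3 ^ m * (ob + 1) := by
  rw [pow_succ (1 + om), ← mul_assoc, rot_eq_even]
  linear_combination (3 : ℂ) ^ m * ob_mul_om

lemma rot_re_even (m : ℕ) : (ob ^ (m + 1) * (1 + om) ^ (2 * m)).re = 3 ^ m / 2 := by
  rw [rot_eq_even]
  have : ((3 : ℂ) ^ m * ob) = ((3 ^ m : ℝ) : ℂ) * ob := by push_cast; ring
  rw [this, re_ofReal_mul, ob_re]
  ring

lemma rot_re_odd (m : ℕ) : (ob ^ (m + 1) * (1 + om) ^ (2 * m + 1)).re = 3 ^ (m + 1) / 2 := by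
  rw [rot_eq_odd]
  have : ((3 : ℂ) ^ m * (ob + 1)) = ((3 ^ m : ℝ) : ℂ) * (ob + 1) := by push_cast; ring
  rw [this, re_ofReal_mul, Complex.add_re, ob_re, Complex.one_re]
  ring

lemma rot_re_pos (q : ℕ) : 0 < (ob ^ (q / 2 + 1) * (1 + om) ^ q).re := by
  rcases Nat.even_or_odd' q with ⟨m, rfl | rfl⟩
  · have : 2 * m / 2 = m := by omega
    rw [this, rot_re_even]
    positivity
  · have : (2 * m + 1) / 2 = m := by omega
    rw [this, rot_re_odd]
    positivity

lemma om_pow_mod (a : ℕ) : om ^ a = om ^ (a % 6) := by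
  conv_lhs => rw [← Nat.div_add_mod a 6]
  rw [pow_add, pow_mul, om_six, one_pow, one_mul]

lemma ob_pow_mul (r k : ℕ) : ob ^ r * om ^ k = om ^ ((5 * r + k) % 6) := by
  rw [ob_eq, ← pow_mul, ← pow_add, om_pow_mod]

lemma ob_pow_mul_two (r k : ℕ) : ob ^ (2 * r) * om ^ (2 * k) = om ^ ((2 * (5 * r + k)) % 6) := by
  rw [ob_eq, ← pow_mul, ← pow_add, om_pow_mod]
  congr 2
  ring

lemma sign_mod (r k : ℕ) : ((-1 : ℝ)) ^ (r + k) = (-1) ^ ((5 * r + k) % 6) := by
  rcases Nat.even_or_odd (r + k) with h | h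
  · rw [h.neg_one_pow, Even.neg_one_pow]
    rw [Nat.even_iff] at h ⊢
    omega
  · rw [h.neg_one_pow, Odd.neg_one_pow]
    rw [Nat.odd_iff] at h ⊢
    omega

lemma phase_nonpos (r k : ℕ) (h : k % 6 ≠ r % 6) :
    (ob ^ r * om ^ k).re + (1 / 2) * (-1 : ℝ) ^ (r + k) ≤ 0 := by
  rw [ob_pow_mul, sign_mod]
  have h1 : (5 * r + k) % 6 = 1 ∨ (5 * r + k) % 6 = 2 ∨ (5 * r + k) % 6 = 3 ∨
    (5 * r + k) % 6 = 4 ∨ (5 * r + k) % 6 = 5 := by omega
  rcases h1 with h1 | h1 | h1 | h1 | h1 <;> rw [h1]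
  · rw [pow_one, om_re]; norm_num
  · rw [om2_re]; norm_num
  · rw [om3_re]; norm_num
  · rw [om4_re]; norm_num
  · rw [om5_re]; norm_num

/-- The number of subsets of `Fin q` whose size is congruent to `r` modulo `6`. -/
noncomputable def cnt (q r : ℕ) : ℕ :=
  (Finset.univ.filter fun S : Finset (Fin q) => S.card % 6 = r % 6).card

lemma indicator_eq (r k : ℕ) :
    (if k % 6 = r % 6 then (6 : ℝ) else 0) =
      1 + (-1) ^ (r + k) + 2 * (ob ^ r * om ^ k).re + 2 * (ob ^ (2 * r) * om ^ (2 * k)).re := by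
  rw [ob_pow_mul, ob_pow_mul_two, sign_mod]
  have h1 : (5 * r + k) % 6 = 0 ∨ (5 * r + k) % 6 = 1 ∨ (5 * r + k) % 6 = 2 ∨
    (5 * r + k) % 6 = 3 ∨ (5 * r + k) % 6 = 4 ∨ (5 * r + k) % 6 = 5 := by omega
  rcases h1 with h1 | h1 | h1 | h1 | h1 | h1
  · rw [if_pos (by omega), h1, show (2 * (5 * r + k)) % 6 = 0 by omega]
    norm_num
  · rw [if_neg (by omega), h1, show (2 * (5 * r + k)) % 6 = 2 by omega, pow_one om, om_re, om2_re]
    norm_num
  · rw [if_neg (by omega), h1, show (2 * (5 * r + k)) % 6 = 4 by omega, om2_re, om4_re]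
    norm_num
  · rw [if_neg (by omega), h1, show (2 * (5 * r + k)) % 6 = 0 by omega, om3_re]
    norm_num
  · rw [if_neg (by omega), h1, show (2 * (5 * r + k)) % 6 = 2 by omega, om4_re, om2_re]
    norm_num
  · rw [if_neg (by omega), h1, show (2 * (5 * r + k)) % 6 = 4 by omega, om5_re, om4_re]
    norm_num

lemma six_mul_cnt (q r : ℕ) (hq : 1 ≤ q) : ((6 * cnt q r : ℕ) : ℝ) =
    2 ^ q + 2 * (ob ^ r * (1 + om) ^ q).re + 2 * (ob ^ (2 * r) * om ^ q).re := by
  have h1 : ((6 * cnt q r : ℕ) : ℝ) =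
      ∑ S : Finset (Fin q), (if S.card % 6 = r % 6 then (6 : ℝ) else 0) := by
    rw [← Finset.sum_filter, Finset.sum_const, nsmul_eq_mul]
    unfold cnt
    push_cast
    ring
  have h2 : ∑ S : Finset (Fin q), (1 : ℝ) = 2 ^ q := by
    rw [Finset.sum_const, Finset.card_univ, Fintype.card_finset, Fintype.card_fin]
    simp
  have h3 : ∑ S : Finset (Fin q), ((-1 : ℝ)) ^ (r + S.card) = 0 := by
    simp_rw [pow_add]
    rw [← Finset.mul_sum]
    have := Finset.prod_one_add (s := (Finset.univ : Finset (Fin q))) (f := fun _ => (-1 : ℝ))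
    simp only [Finset.prod_const, Finset.powerset_univ] at this
    rw [← this]
    have h0 : (1 + (-1 : ℝ)) = 0 := by norm_num
    rw [h0, Finset.card_univ, Fintype.card_fin, zero_pow (by omega), mul_zero]
  have h4 : ∀ c : ℂ, ∑ S : Finset (Fin q), c ^ S.card = (1 + c) ^ q := by
    intro c
    have := Finset.prod_one_add (s := (Finset.univ : Finset (Fin q))) (f := fun _ => c)
    simp only [Finset.prod_const, Finset.powerset_univ] at this
    rw [← this]
    simp
  have h5 : ∑ S : Finset (Fin q), (ob ^ r * om ^ S.card).re = (ob ^ r * (1 + om) ^ q).re := by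
    rw [← Complex.re_sum, ← Finset.mul_sum, h4]
  have h6 : ∑ S : Finset (Fin q), (ob ^ (2 * r) * om ^ (2 * S.card)).re =
      (ob ^ (2 * r) * om ^ q).re := by
    simp_rw [pow_mul om 2]
    rw [← Complex.re_sum, ← Finset.mul_sum, h4]
    have : 1 + om ^ 2 = om := by linear_combination om_sq
    rw [this]
  rw [h1]
  simp_rw [indicator_eq]
  rw [Finset.sum_add_distrib, Finset.sum_add_distrib, Finset.sum_add_distrib,
    ← Finset.mul_sum, ← Finset.mul_sum, h2, h3, h5, h6]
  ring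

lemma six_mul_cnt_even (m : ℕ) (hm : 1 ≤ m) :
    6 * cnt (2 * m) (m + 1) + 1 = 2 ^ (2 * m) + 3 ^ m := by
  have h := six_mul_cnt (2 * m) (m + 1) (by omega)
  have h1 : ob ^ (2 * (m + 1)) * om ^ (2 * m) = om ^ 4 := by
    have h2 : ob ^ (2 * (m + 1)) * om ^ (2 * m) = (ob * om) ^ (2 * m) * ob ^ 2 := by ring
    rw [h2, ob_mul_om, one_pow, one_mul, ob_eq]
    linear_combination om ^ 4 * om_six
  rw [rot_re_even, h1, om4_re] at h
  have h2 : ((6 * cnt (2 * m) (m + 1) + 1 : ℕ) : ℝ) = ((2 ^ (2 * m) + 3 ^ m : ℕ) : ℝ) := by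
    push_cast at h ⊢
    linarith
  exact_mod_cast h2

lemma six_mul_cnt_odd (m : ℕ) :
    6 * cnt (2 * m + 1) (m + 1) = 2 ^ (2 * m + 1) + 3 ^ (m + 1) + 1 := by
  have h := six_mul_cnt (2 * m + 1) (m + 1) (by omega)
  have h1 : ob ^ (2 * (m + 1)) * om ^ (2 * m + 1) = ob := by
    have h2 : ob ^ (2 * (m + 1)) * om ^ (2 * m + 1) = (ob * om) ^ (2 * m + 1) * ob := by ring
    rw [h2, ob_mul_om, one_pow, one_mul]
  rw [rot_re_odd, h1, ob_re] at h
  have h2 : ((6 * cnt (2 * m + 1) (m + 1) : ℕ) : ℝ) =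
      ((2 ^ (2 * m + 1) + 3 ^ (m + 1) + 1 : ℕ) : ℝ) := by
    push_cast at h ⊢
    linarith
  exact_mod_cast h2

/-- The finite version of the bound. -/
lemma card_le_cnt {q : ℕ} (hq : 1 ≤ q) (F : Finset (Fin q → ℤ))
    (hF1 : ∀ u ∈ F, ∀ v ∈ F, u ≠ v → ∃ j n, (u - v) j = 3 * n + 1)
    (hF0 : ∀ u ∈ F, ∀ v ∈ F, u ≠ v → ∃ j n, (u - v) j = 3 * n) :
    F.card ≤ cnt q (q / 2 + 1) := by
  classical
  by_contra hlt
  rw [not_le] at hlt
  set r := q / 2 + 1 with hr
  let T : (F → ℂ) →ₗ[ℂ] ({S : Finset (Fin q) // S.card % 6 = r % 6} → ℂ) :=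
    { toFun := fun y S => ∑ u : F, y u * chi u.1 S.1
      map_add' := by
        intro x y
        ext S
        simp only [Pi.add_apply, add_mul, Finset.sum_add_distrib]
      map_smul' := by
        intro c y
        ext S
        simp only [Pi.smul_apply, smul_eq_mul, RingHom.id_apply, Finset.mul_sum, mul_assoc] }
  have hker : LinearMap.ker T ≠ ⊥ := by
    apply LinearMap.ker_ne_bot_of_finrank_lt
    rw [Module.finrank_pi, Module.finrank_pi, Fintype.card_coe, Fintype.card_subtype]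
    exact hlt
  obtain ⟨y, hyk, hy0⟩ := (Submodule.ne_bot_iff _).1 hker
  have hy : ∀ S : Finset (Fin q), S.card % 6 = r % 6 → ∑ u : F, y u * chi u.1 S = 0 := by
    intro S hS
    have := congrFun (LinearMap.mem_ker.1 hyk) ⟨S, hS⟩
    simpa [T] using this
  have hpos : 0 < ∑ u : F, Complex.normSq (y u) := by
    obtain ⟨u, hu⟩ : ∃ u, y u ≠ 0 := by
      by_contra hcon
      exact hy0 (funext fun u => by_contra fun hu => hcon ⟨u, hu⟩)
    exact Finset.sum_pos' (fun _ _ => Complex.normSq_nonneg _)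
      ⟨u, Finset.mem_univ _, Complex.normSq_pos.2 hu⟩
  -- expansion of the two forms
  have e1 : ∀ (c : ℂ) (S : Finset (Fin q)), c ^ S.card *
      ((∑ u : F, y u * chi u.1 S) * (starRingEnd ℂ) (∑ u : F, y u * chi u.1 S)) =
      ∑ u : F, ∑ v : F, (y u * (starRingEnd ℂ) (y v)) *
        (c ^ S.card * (chi u.1 S * (starRingEnd ℂ) (chi v.1 S))) := by
    intro c S
    rw [map_sum, Finset.sum_mul_sum, Finset.mul_sum]
    refine Finset.sum_congr rfl fun u _ => ?_
    rw [Finset.mul_sum]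
    refine Finset.sum_congr rfl fun v _ => ?_
    rw [map_mul]
    ring
  -- the main identity
  have hid : ∑ S : Finset (Fin q), om ^ S.card *
      ((∑ u : F, y u * chi u.1 S) * (starRingEnd ℂ) (∑ u : F, y u * chi u.1 S)) =
      (1 + om) ^ q * ((∑ u : F, Complex.normSq (y u) : ℝ) : ℂ) := by
    simp_rw [e1]
    rw [Finset.sum_comm]
    have e2 : ∀ u : F, ∑ S : Finset (Fin q), ∑ v : F, (y u * (starRingEnd ℂ) (y v)) *
          (om ^ S.card * (chi u.1 S * (starRingEnd ℂ) (chi v.1 S))) =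
          (1 + om) ^ q * ((Complex.normSq (y u) : ℝ) : ℂ) := by
      intro u
      rw [Finset.sum_comm]
      simp_rw [← Finset.mul_sum, sum_chi]
      rw [Finset.sum_eq_single u]
      · simp only [sub_self, zpow_zero, mul_one, Finset.prod_const, Finset.card_univ,
          Fintype.card_fin]
        rw [Complex.mul_conj]
        ring
      · intro v _ hvu
        rw [prod_om_eq_zero (hF1 u.1 u.2 v.1 v.2 (fun h => hvu (Subtype.ext h.symm)))]
        ring
      · intro h
        exact absurd (Finset.mem_univ u) h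
    simp_rw [e2]
    rw [← Finset.mul_sum]
    push_cast
    rfl
  -- the isotropic form
  have hid0 : ∑ S : Finset (Fin q), (-1 : ℂ) ^ S.card *
      ((∑ u : F, y u * chi u.1 S) * (starRingEnd ℂ) (∑ u : F, y u * chi u.1 S)) = 0 := by
    simp_rw [e1]
    rw [Finset.sum_comm]
    refine Finset.sum_eq_zero fun u _ => ?_
    rw [Finset.sum_comm]
    simp_rw [← Finset.mul_sum, sum_chi]
    refine Finset.sum_eq_zero fun v _ => ?_
    by_cases huv : u = v
    · have : ∏ j, (1 + (-1) * rho ^ (u.1 j - v.1 j)) = 0 :=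
        prod_neg_eq_zero ⟨⟨0, by omega⟩, 0, by rw [huv]; simp⟩
      rw [this, mul_zero]
    · rw [prod_neg_eq_zero (hF0 u.1 u.2 v.1 v.2 (fun h => huv (Subtype.ext h))), mul_zero]
  have hre := congrArg (fun z : ℂ => (ob ^ r * z).re) hid
  have hre0 := congrArg (fun z : ℂ => ((-1 : ℂ) ^ r * z).re) hid0
  beta_reduce at hre hre0
  rw [← mul_assoc, mul_comm _ (((∑ u : F, Complex.normSq (y u) : ℝ) : ℂ)), re_ofReal_mul,
    Finset.mul_sum, Complex.re_sum] at hre
  rw [mul_zero, Complex.zero_re, Finset.mul_sum, Complex.re_sum] at hre0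
  have hA : ∀ S : Finset (Fin q), (ob ^ r * (om ^ S.card *
      ((∑ u : F, y u * chi u.1 S) * (starRingEnd ℂ) (∑ u : F, y u * chi u.1 S)))).re =
      Complex.normSq (∑ u : F, y u * chi u.1 S) * (ob ^ r * om ^ S.card).re := by
    intro S
    rw [← mul_assoc, Complex.mul_conj, mul_comm, re_ofReal_mul]
  have hB : ∀ S : Finset (Fin q), ((-1 : ℂ) ^ r * ((-1 : ℂ) ^ S.card *
      ((∑ u : F, y u * chi u.1 S) * (starRingEnd ℂ) (∑ u : F, y u * chi u.1 S)))).re =
      Complex.normSq (∑ u : F, y u * chi u.1 S) * (-1 : ℝ) ^ (r + S.card) := by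
    intro S
    rw [← mul_assoc, Complex.mul_conj, mul_comm, re_ofReal_mul, ← pow_add]
    congr 1
    have : ((-1 : ℂ)) ^ (r + S.card) = (((-1 : ℝ) ^ (r + S.card) : ℝ) : ℂ) := by push_cast; rfl
    rw [this, Complex.ofReal_re]
  simp_rw [hA] at hre
  simp_rw [hB] at hre0
  have hle : ∑ S : Finset (Fin q), (Complex.normSq (∑ u : F, y u * chi u.1 S) *
      (ob ^ r * om ^ S.card).re + (1 / 2) * (Complex.normSq (∑ u : F, y u * chi u.1 S) *
      (-1 : ℝ) ^ (r + S.card))) ≤ 0 := by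
    refine Finset.sum_nonpos fun S _ => ?_
    by_cases hS : S.card % 6 = r % 6
    · rw [hy S hS]
      simp
    · have := phase_nonpos r S.card hS
      have h2 := mul_nonpos_of_nonneg_of_nonpos
        (Complex.normSq_nonneg (∑ u : F, y u * chi u.1 S)) this
      linarith
  rw [Finset.sum_add_distrib, ← Finset.mul_sum, hre, hre0, mul_zero, add_zero] at hle
  have hp := rot_re_pos q
  rw [← hr] at hp
  have : 0 < (∑ u : F, Complex.normSq (y u)) * (ob ^ r * (1 + om) ^ q).re := mul_pos hpos hp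
  linarith

/-- The numerical bound. -/
lemma bound_of_card_le {q n : ℕ} (hq : 1 ≤ q) (h : n ≤ cnt q (q / 2 + 1)) :
    6 * n ≤ 2 ^ q + 3 ^ ((q + 1) / 2) + 1 ∧ (Even q → 6 * n + 1 ≤ 2 ^ q + 3 ^ (q / 2)) := by
  rcases Nat.even_or_odd' q with ⟨m, rfl | rfl⟩
  · have h1 : 2 * m / 2 = m := by omega
    have h2 : (2 * m + 1) / 2 = m := by omega
    rw [h1] at h ⊢
    rw [h2]
    have h3 := six_mul_cnt_even m (by omega)
    constructor
    · omega
    · intro _
      omega
  · have h1 : (2 * m + 1) / 2 = m := by omega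
    have h2 : (2 * m + 1 + 1) / 2 = m + 1 := by omega
    rw [h1] at h
    rw [h2]
    have h3 := six_mul_cnt_odd m
    refine ⟨by omega, fun he => ?_⟩
    exfalso
    rw [Nat.even_iff] at he
    omega

/-- The upper bounds. Let `q ≥ 1`.
(1) Let `A` be a set of integers with `0, 1 ∈ A` (for instance `A = {-1, 0, 1}`). Every
`A`-covering family `F` of vectors in `ℤ^q` is finite, `6 |F| ≤ 2 ^ q + 3 ^ ⌈q/2⌉ + 1`, and for
even `q` also `6 |F| ≤ 2 ^ q + 3 ^ (q/2) - 1`.
(2) The same bounds hold for every family `G` of vectors over `ℤ/3` such that any two distinct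
members differ by every element of `ℤ/3` in some coordinate. -/
theorem upper (q : ℕ) (hq : 1 ≤ q) :
    (∀ (A : Set ℤ), (0 : ℤ) ∈ A → (1 : ℤ) ∈ A → ∀ F : Set (Fin q → ℤ), IsCoveringFamily A F →
      F.Finite ∧ 6 * F.ncard ≤ 2 ^ q + 3 ^ ((q + 1) / 2) + 1 ∧
        (Even q → 6 * F.ncard + 1 ≤ 2 ^ q + 3 ^ (q / 2))) ∧
    (∀ G : Set (Fin q → ZMod 3), IsCoveringFamily Set.univ G →
      6 * G.ncard ≤ 2 ^ q + 3 ^ ((q + 1) / 2) + 1 ∧
        (Even q → 6 * G.ncard + 1 ≤ 2 ^ q + 3 ^ (q / 2))) := by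
  constructor
  · intro A h0 h1 F hF
    have key : ∀ G : Finset (Fin q → ℤ), (↑G : Set (Fin q → ℤ)) ⊆ F →
        G.card ≤ cnt q (q / 2 + 1) := by
      intro G hG
      refine card_le_cnt hq G (fun u hu v hv huv => ?_) (fun u hu v hv huv => ?_)
      · obtain ⟨j, hj⟩ := hF u (hG hu) v (hG hv) huv 1 h1
        exact ⟨j, 0, by rw [hj]; ring⟩
      · obtain ⟨j, hj⟩ := hF u (hG hu) v (hG hv) huv 0 h0
        exact ⟨j, 0, by rw [hj]; ring⟩
    have hfin : F.Finite := by
      by_contra hinf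
      obtain ⟨G, hG, hc⟩ := Set.Infinite.exists_subset_card_eq hinf (cnt q (q / 2 + 1) + 1)
      have := key G hG
      omega
    refine ⟨hfin, bound_of_card_le hq ?_⟩
    rw [Set.ncard_eq_toFinset_card F hfin]
    exact key _ (by simp)
  · intro G hG
    have hfin : G.Finite := Set.toFinite G
    refine bound_of_card_le hq ?_
    classical
    let L : (Fin q → ZMod 3) → (Fin q → ℤ) := fun u j => ((u j).val : ℤ)
    have hL : Function.Injective L := by
      intro u v huv
      funext j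
      have := congrFun huv j
      simp only [L, Nat.cast_inj] at this
      exact ZMod.val_injective 3 this
    have hcast : ∀ (u v : Fin q → ZMod 3) (j : Fin q) (a : ℤ), u j - v j = (a : ZMod 3) →
        ∃ n, (L u - L v) j = 3 * n + a := by
      intro u v j a h
      have h2 : (((L u - L v) j : ℤ) : ZMod 3) = (a : ZMod 3) := by
        simp only [L, Pi.sub_apply]
        push_cast
        rw [ZMod.natCast_zmod_val, ZMod.natCast_zmod_val, h]
      rw [ZMod.intCast_eq_intCast_iff_dvd_sub] at h2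
      obtain ⟨n, hn⟩ := h2
      refine ⟨-n, ?_⟩
      push_cast at hn
      linarith
    rw [Set.ncard_eq_toFinset_card G hfin, ← Finset.card_image_of_injective _ hL]
    refine card_le_cnt hq _ (fun u hu v hv huv => ?_) (fun u hu v hv huv => ?_)
    · obtain ⟨u', hu', rfl⟩ := Finset.mem_image.1 hu
      obtain ⟨v', hv', rfl⟩ := Finset.mem_image.1 hv
      obtain ⟨j, hj⟩ := hG u' (hfin.mem_toFinset.1 hu') v' (hfin.mem_toFinset.1 hv')
        (fun h => huv (by rw [h])) 1 (Set.mem_univ _)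
      obtain ⟨n, hn⟩ := hcast u' v' j 1 (by rw [← Pi.sub_apply, hj]; simp)
      exact ⟨j, n, hn⟩
    · obtain ⟨u', hu', rfl⟩ := Finset.mem_image.1 hu
      obtain ⟨v', hv', rfl⟩ := Finset.mem_image.1 hv
      obtain ⟨j, hj⟩ := hG u' (hfin.mem_toFinset.1 hu') v' (hfin.mem_toFinset.1 hv')
        (fun h => huv (by rw [h])) 0 (Set.mem_univ _)
      obtain ⟨n, hn⟩ := hcast u' v' j 0 (by rw [← Pi.sub_apply, hj]; simp)
      exact ⟨j, n, by rw [hn]; ring⟩

/-- The `0/1` vector over `R` with support `S`. -/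
def ind (R : Type) [Ring R] {q : ℕ} (S : Finset (Fin q)) : Fin q → R :=
  fun j => if j ∈ S then 1 else 0

/-- All `0/1` vectors of length `q` with exactly `q / 2 + 1` ones. -/
def layer (R : Type) [Ring R] (q : ℕ) : Set (Fin q → R) :=
  {w | ∃ S : Finset (Fin q), S.card = q / 2 + 1 ∧ w = ind R S}

lemma ind_injective (R : Type) [Ring R] [Nontrivial R] {q : ℕ} :
    Function.Injective (ind R : Finset (Fin q) → (Fin q → R)) := by
  intro S T h
  ext j
  have hj := congrFun h j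
  unfold ind at hj
  by_cases h1 : j ∈ S <;> by_cases h2 : j ∈ T <;> simp_all

lemma layer_ncard (R : Type) [Ring R] [Nontrivial R] (q : ℕ) :
    (layer R q).ncard = q.choose (q / 2 + 1) := by
  have h : layer R q =
      ind R '' (↑(Finset.powersetCard (q / 2 + 1) (Finset.univ : Finset (Fin q))) :
        Set (Finset (Fin q))) := by
    ext w
    constructor
    · rintro ⟨S, hS, rfl⟩
      exact ⟨S, Finset.mem_coe.2 (Finset.mem_powersetCard.2 ⟨Finset.subset_univ _, hS⟩), rfl⟩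
    · rintro ⟨S, hS, rfl⟩
      exact ⟨S, (Finset.mem_powersetCard.1 (Finset.mem_coe.1 hS)).2, rfl⟩
  rw [h, Set.ncard_image_of_injective _ (ind_injective R), Set.ncard_coe_finset,
    Finset.card_powersetCard, Finset.card_univ, Fintype.card_fin]

lemma layer_covering (R : Type) [Ring R] (q : ℕ) :
    IsCoveringFamily ({-1, 0, 1} : Set R) (layer R q) := by
  rintro u ⟨S, hS, rfl⟩ v ⟨T, hT, rfl⟩ huv
  have hST : S ≠ T := fun h => huv (by rw [h])
  have hcard : S.card = T.card := by rw [hS, hT]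
  have h1 : ∃ j, j ∈ S ∧ j ∉ T := by
    by_contra hc
    push Not at hc
    exact hST (Finset.eq_of_subset_of_card_le (fun j hj => hc j hj) (by omega))
  have h2 : ∃ j, j ∈ T ∧ j ∉ S := by
    by_contra hc
    push Not at hc
    exact hST (Finset.eq_of_subset_of_card_le (fun j hj => hc j hj) (by omega)).symm
  have h3 : ∃ j, j ∈ S ∧ j ∈ T := by
    by_contra hc
    push Not at hc
    have hd : Disjoint S T := Finset.disjoint_left.2 hc
    have := Finset.card_union_of_disjoint hd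
    have h4 : (S ∪ T).card ≤ q := by
      have := Finset.card_le_univ (S ∪ T)
      rwa [Fintype.card_fin] at this
    omega
  intro a ha
  simp only [Set.mem_insert_iff, Set.mem_singleton_iff] at ha
  rcases ha with rfl | rfl | rfl
  · obtain ⟨j, hj, hj'⟩ := h2
    exact ⟨j, by simp [ind, hj, hj']⟩
  · obtain ⟨j, hj, hj'⟩ := h3
    exact ⟨j, by simp [ind, hj, hj']⟩
  · obtain ⟨j, hj, hj'⟩ := h1
    exact ⟨j, by simp [ind, hj, hj']⟩

lemma univ_three : (Set.univ : Set (ZMod 3)) = {-1, 0, 1} := by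
  ext a
  simp only [Set.mem_univ, Set.mem_insert_iff, Set.mem_singleton_iff, true_iff]
  revert a
  decide

/-- The sizes of the `A`-covering families in `R ^ q`. -/
def sizes (R : Type) [Ring R] (A : Set R) (q : ℕ) : Set ℕ :=
  {n | ∃ F : Set (Fin q → R), F.Finite ∧ IsCoveringFamily A F ∧ F.ncard = n}

lemma layer_finite (R : Type) [Ring R] (q : ℕ) : (layer R q).Finite := by
  have : (layer R q) ⊆ Set.range (ind R : Finset (Fin q) → (Fin q → R)) := by
    rintro w ⟨S, _, rfl⟩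
    exact ⟨S, rfl⟩
  exact (Set.finite_range _).subset this

lemma le_choose_of_small {q n : ℕ} (hq : 1 ≤ q) (hq9 : q ≤ 9)
    (h : 6 * n ≤ 2 ^ q + 3 ^ ((q + 1) / 2) + 1)
    (he : Even q → 6 * n + 1 ≤ 2 ^ q + 3 ^ (q / 2)) : n ≤ q.choose (q / 2 + 1) := by
  interval_cases q
  · norm_num [Nat.choose] at h ⊢; omega
  · have := he (by decide)
    norm_num [Nat.choose] at this ⊢; omega
  · norm_num [Nat.choose] at h ⊢; omega
  · have := he (by decide)
    norm_num [Nat.choose] at this ⊢; omega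
  · norm_num [Nat.choose] at h ⊢; omega
  · have := he (by decide)
    norm_num [Nat.choose] at this ⊢; omega
  · norm_num [Nat.choose] at h ⊢; omega
  · have := he (by decide)
    norm_num [Nat.choose] at this ⊢; omega
  · norm_num [Nat.choose] at h ⊢; omega

/-- **Result.** Let `q ≥ 1`.
(1) Let `A` be a set of integers with `0, 1 ∈ A` (for instance `A = {-1, 0, 1}`). Every
`A`-covering family `F` of vectors in `ℤ^q` is finite, `6 |F| ≤ 2 ^ q + 3 ^ ⌈q/2⌉ + 1`, and for
even `q` also `6 |F| ≤ 2 ^ q + 3 ^ (q/2) - 1`.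
(2) The same bounds hold for every family `G` of vectors over `ℤ/3` such that any two distinct
members differ by every element of `ℤ/3` in some coordinate.
(3) The `0/1` vectors with exactly `⌊q/2⌋ + 1` ones are a family of both kinds, and for `q ≤ 9`
it is largest: the maximum of the sizes of `{-1, 0, 1}`-covering families in `ℤ^q` and the maximum
for `ℤ/3` are both equal to `binom(q, ⌊q/2⌋ + 1)`. -/
theorem result (q : ℕ) (hq : 1 ≤ q) :
    (∀ (A : Set ℤ), (0 : ℤ) ∈ A → (1 : ℤ) ∈ A → ∀ F : Set (Fin q → ℤ), IsCoveringFamily A F →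
      F.Finite ∧ 6 * F.ncard ≤ 2 ^ q + 3 ^ ((q + 1) / 2) + 1 ∧
        (Even q → 6 * F.ncard + 1 ≤ 2 ^ q + 3 ^ (q / 2))) ∧
    (∀ G : Set (Fin q → ZMod 3), IsCoveringFamily Set.univ G →
      6 * G.ncard ≤ 2 ^ q + 3 ^ ((q + 1) / 2) + 1 ∧
        (Even q → 6 * G.ncard + 1 ≤ 2 ^ q + 3 ^ (q / 2))) ∧
    q.choose (q / 2 + 1) ∈ sizes ℤ {-1, 0, 1} q ∧
    q.choose (q / 2 + 1) ∈ sizes (ZMod 3) Set.univ q ∧
    (q ≤ 9 → IsGreatest (sizes ℤ {-1, 0, 1} q) (q.choose (q / 2 + 1)) ∧
      IsGreatest (sizes (ZMod 3) Set.univ q) (q.choose (q / 2 + 1))) := by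
  obtain ⟨hZ, h3⟩ := upper q hq
  have mZ : q.choose (q / 2 + 1) ∈ sizes ℤ {-1, 0, 1} q :=
    ⟨layer ℤ q, layer_finite ℤ q, layer_covering ℤ q, layer_ncard ℤ q⟩
  have m3 : q.choose (q / 2 + 1) ∈ sizes (ZMod 3) Set.univ q := by
    rw [univ_three]
    exact ⟨layer (ZMod 3) q, layer_finite _ q, layer_covering _ q, layer_ncard _ q⟩
  refine ⟨hZ, h3, mZ, m3, fun hq9 => ⟨⟨mZ, ?_⟩, ⟨m3, ?_⟩⟩⟩
  · rintro n ⟨F, -, hF, rfl⟩
    obtain ⟨-, hb, hbe⟩ := hZ {-1, 0, 1} (by simp) (by simp) F hF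
    exact le_choose_of_small hq hq9 hb hbe
  · rintro n ⟨G, -, hG, rfl⟩
    obtain ⟨hb, hbe⟩ := h3 G hG
    exact le_choose_of_small hq hq9 hb hbe

end Pool.Agent.Results.MP_f4ab27_co.SixthBound
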