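import Pool.Agent.Lib.MP_5a1161_co_h27.Ramsey

/-!
Covering families of integer vectors: no full local layers.

Let `F` be a family of integer vectors of length `q` in which every difference of two distinct
members has a coordinate equal to `1`.  Next to a member `u` no layer is full over a large set of
coordinates: for every `m` there is `N` such that every set of `N` coordinates has a subset of size
`m` which is not the set of odd coordinates of `v - u` for any member `v`.  Hence a family whose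
parity patterns are symmetric in a large number of coordinates has density close to `0`.
-/

set_option autoImplicit false

namespace Pool.Agent.Results.MP_f4ab27_co.SymmetricParities



open Finset

/-- the type of an integer: `1`, `-1` or something else -/
def ty (x : ℤ) : ℤ := if x = 1 then 1 else if x = -1 then -1 else 0

lemma ty_one {x : ℤ} (h : ty x = 1) : x = 1 := by
  unfold ty at h; split_ifs at h <;> omega

lemma ty_neg {x : ℤ} (h : ty x = -1) : x = -1 := by
  unfold ty at h; split_ifs at h <;> omega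

lemma ty_zero {x : ℤ} (h : ty x = 0) : x ≠ 1 ∧ x ≠ -1 := by
  unfold ty at h; split_ifs at h <;> omega

lemma ty_cases (x : ℤ) : ty x = 1 ∨ ty x = -1 ∨ ty x = 0 := by
  unfold ty; split_ifs <;> omega

/-- The combinatorial core. -/
lemma core (m : ℕ) (X : ℕ → ℕ → ℤ) (E : ℕ → ℤ) (τ : ℕ → ℤ)
    (h1 : ∀ a b, a ≤ m → b ≤ m → a ≠ b →
      X a b - E a = X b a - E b ∧ (X a b - E a = 1 ∨ X a b - E a = -1))
    (h2 : ∀ a b, a < b → b ≤ m → ty (X a b) = τ a)
    (h3 : ∀ a b, b < a → a ≤ m → ty (X a b) = τ (a - 1)) :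
    ∀ d p : ℕ, p + d < m → (τ p = 1 ∧ τ (p + d) = -1 ∨ τ p = -1 ∧ τ (p + d) = 1) → False := by
  intro d
  induction d using Nat.strong_induction_on with
  | _ d ih =>
    intro p hp hτ
    have hval : ∀ a, a < m → τ a = 1 ∨ τ a = -1 ∨ τ a = 0 := by
      intro a ha
      rw [← h2 a m ha le_rfl]
      exact ty_cases _
    by_cases hex : ∃ j, 0 < j ∧ j < d ∧ τ (p + j) ≠ 0
    · obtain ⟨j, hj0, hjd, hj⟩ := hex
      have hA := ih j hjd p (by omega)
      have hB := ih (d - j) (by omega) (p + j) (by omega)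
      rw [show p + j + (d - j) = p + d by omega] at hB
      rcases hval (p + j) (by omega) with h | h | h
      · rcases hτ with ⟨a1, a2⟩ | ⟨a1, a2⟩
        · exact hB (Or.inl ⟨h, a2⟩)
        · exact hA (Or.inr ⟨a1, h⟩)
      · rcases hτ with ⟨a1, a2⟩ | ⟨a1, a2⟩
        · exact hA (Or.inl ⟨a1, h⟩)
        · exact hB (Or.inr ⟨h, a2⟩)
      · exact hj h
    · push Not at hex
      rcases Nat.lt_or_ge d 1 with hd | hd
      · have : d = 0 := by omega
        subst this
        simp only [add_zero] at hτ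
        omega
      rcases Nat.lt_or_ge d 2 with hd2 | hd2
      · have : d = 1 := by omega
        subst this
        have e1 := h2 p (p + 1) (by omega) (by omega)
        have e2 := h2 p (p + 2) (by omega) (by omega)
        have e3 := h3 (p + 1) p (by omega) (by omega)
        have e4 := h2 (p + 1) (p + 2) (by omega) (by omega)
        have e5 := h3 (p + 2) (p + 1) (by omega) (by omega)
        have e6 := h3 (p + 2) p (by omega) (by omega)
        simp only [Nat.add_sub_cancel] at e3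
        rw [show p + 2 - 1 = p + 1 by omega] at e5 e6
        have f1 := (h1 p (p + 1) (by omega) (by omega) (by omega)).1
        have f2 := (h1 (p + 1) (p + 2) (by omega) (by omega) (by omega)).1
        have f3 := (h1 p (p + 2) (by omega) (by omega) (by omega)).1
        rcases hτ with ⟨a1, a2⟩ | ⟨a1, a2⟩
        · rw [a1] at e1 e2 e3
          rw [a2] at e4 e5 e6
          have := ty_one e1; have := ty_one e2; have := ty_one e3
          have := ty_neg e4; have := ty_neg e5; have := ty_neg e6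
          omega
        · rw [a1] at e1 e2 e3
          rw [a2] at e4 e5 e6
          have := ty_neg e1; have := ty_neg e2; have := ty_neg e3
          have := ty_one e4; have := ty_one e5; have := ty_one e6
          omega
      · have z1 : τ (p + 1) = 0 := hex 1 (by omega) (by omega)
        have z2 : τ (p + d - 1) = 0 := by
          have := hex (d - 1) (by omega) (by omega)
          rwa [show p + (d - 1) = p + d - 1 by omega] at this
        have e1 := h3 (p + 1) p (by omega) (by omega)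
        have e2 := h2 (p + 1) (p + d) (by omega) (by omega)
        have e3 := h3 (p + d) (p + 1) (by omega) (by omega)
        have e4 := h2 (p + d) (p + d + 1) (by omega) (by omega)
        simp only [Nat.add_sub_cancel] at e1
        rw [z1] at e2
        rw [z2] at e3
        have := ty_zero e2
        have := ty_zero e3
        have f1 := h1 (p + 1) (p + d) (by omega) (by omega) (by omega)
        have f2 := h1 (p + 1) p (by omega) (by omega) (by omega)
        have f3 := h1 (p + d) (p + d + 1) (by omega) (by omega) (by omega)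
        rcases hτ with ⟨a1, a2⟩ | ⟨a1, a2⟩
        · rw [a1] at e1
          rw [a2] at e4
          have := ty_one e1; have := ty_neg e4
          omega
        · rw [a1] at e1
          rw [a2] at e4
          have := ty_neg e1; have := ty_one e4
          omega

section
variable {q : ℕ}

/-- The odd coordinates of the difference. -/
def oddPart (u v : Fin q → ℤ) : Finset (Fin q) := univ.filter fun i => Odd (v i - u i)

lemma mem_oddPart {u v : Fin q → ℤ} {i : Fin q} : i ∈ oddPart u v ↔ Odd (v i - u i) := by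
  simp [oddPart]

/-- One `(m+1)`-set all of whose `m`-subsets are oddPartterns of one type is impossible. -/
lemma no_D (F : Set (Fin q → ℤ)) (hF : ∀ u ∈ F, ∀ v ∈ F, u ≠ v → ∃ j, u j - v j = 1)
    (u : Fin q → ℤ) (hu : u ∈ F) (m : ℕ) (hm : 0 < m) (D : Finset (Fin q)) (hD : D.card = m + 1)
    (v : Finset (Fin q) → Fin q → ℤ) (hv : ∀ W ⊆ D, W.card = m → v W ∈ F ∧ oddPart u (v W) = W)
    (c : Fin m → ℤ)
    (hc : ∀ W ⊆ D, ∀ h : W.card = m, ∀ a : Fin m,
      ty (v W (W.orderEmbOfFin h a) - u (W.orderEmbOfFin h a)) = c a) : False := by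
  classical
  set e := D.orderEmbOfFin hD with he
  set g : ℕ → Fin q := fun a => e ⟨a % (m + 1), Nat.mod_lt _ (Nat.succ_pos m)⟩ with hg
  have gval : ∀ a (ha : a ≤ m), g a = e ⟨a, by omega⟩ := by
    intro a ha
    simp only [hg]
    congr 1
    ext
    simp only
    exact Nat.mod_eq_of_lt (by omega)
  have gD : ∀ a, g a ∈ D := fun a => D.orderEmbOfFin_mem hD _
  have ginj : ∀ a b, a ≤ m → b ≤ m → g a = g b → a = b := by
    intro a b ha hb h
    rw [gval a ha, gval b hb] at h
    have := e.injective h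
    simpa using this
  have gsurj : ∀ x ∈ D, ∃ a, a ≤ m ∧ g a = x := by
    intro x hx
    have : x ∈ Set.range e := by
      rw [he, Finset.range_orderEmbOfFin]
      exact hx
    obtain ⟨i, hi⟩ := this
    refine ⟨i, by omega, ?_⟩
    rw [gval i (by omega)]
    exact hi
  have hWc : ∀ b, (D.erase (g b)).card = m := by
    intro b
    rw [Finset.card_erase_of_mem (gD b), hD]
    omega
  have hWs : ∀ b, D.erase (g b) ⊆ D := fun b => Finset.erase_subset _ _
  set X : ℕ → ℕ → ℤ := fun a b => v (D.erase (g b)) (g a) - u (g a) with hX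
  set E : ℕ → ℤ := fun a => v (D.erase (g a)) (g a) - u (g a) with hE
  set τ : ℕ → ℤ := fun a => if h : a < m then c ⟨a, h⟩ else 0 with hτ
  -- enumeration of `D.erase (g b)`
  have henum : ∀ b (hb : b ≤ m) (a : Fin m),
      (D.erase (g b)).orderEmbOfFin (hWc b) a = e ((⟨b, by omega⟩ : Fin (m + 1)).succAbove a) := by
    intro b hb a
    have hf := Finset.orderEmbOfFin_unique (s := D.erase (g b)) (hWc b)
      (f := fun a : Fin m => e ((⟨b, by omega⟩ : Fin (m + 1)).succAbove a)) ?_ ?_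
    · exact (congrFun hf a).symm
    · intro x
      rw [Finset.mem_erase]
      refine ⟨?_, D.orderEmbOfFin_mem hD _⟩
      rw [gval b hb]
      intro h
      exact Fin.succAbove_ne _ _ (e.injective h)
    · intro x y hxy
      exact e.strictMono (Fin.strictMono_succAbove _ hxy)
  have h2 : ∀ a b, a < b → b ≤ m → ty (X a b) = τ a := by
    intro a b hab hb
    have h := hc (D.erase (g b)) (hWs b) (hWc b) ⟨a, by omega⟩
    rw [henum b hb] at h
    have h' : ((⟨b, by omega⟩ : Fin (m + 1)).succAbove ⟨a, by omega⟩ : Fin (m + 1)) =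
        ⟨a, by omega⟩ := by
      rw [Fin.succAbove_of_castSucc_lt]
      · rfl
      · exact hab
    rw [h', ← gval a (by omega)] at h
    simp only [hX, hτ]
    rw [h, dif_pos (by omega : a < m)]
  have h3 : ∀ a b, b < a → a ≤ m → ty (X a b) = τ (a - 1) := by
    intro a b hab ha
    have h := hc (D.erase (g b)) (hWs b) (hWc b) ⟨a - 1, by omega⟩
    rw [henum b (by omega)] at h
    have h' : ((⟨b, by omega⟩ : Fin (m + 1)).succAbove ⟨a - 1, by omega⟩ : Fin (m + 1)) =
        ⟨a, by omega⟩ := by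
      rw [Fin.succAbove_of_le_castSucc]
      · ext
        simp only [Fin.val_succ]
        omega
      · rw [Fin.le_iff_val_le_val]
        simp only [Fin.val_castSucc]
        omega
    rw [h', ← gval a ha] at h
    simp only [hX, hτ]
    rw [h, dif_pos (by omega : a - 1 < m)]
  have h1 : ∀ a b, a ≤ m → b ≤ m → a ≠ b →
      X a b - E a = X b a - E b ∧ (X a b - E a = 1 ∨ X a b - E a = -1) := by
    intro a b ha hb hab
    have hgab : g a ≠ g b := fun h => hab (ginj a b ha hb h)
    obtain ⟨ha1, ha2⟩ := hv _ (hWs a) (hWc a)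
    obtain ⟨hb1, hb2⟩ := hv _ (hWs b) (hWc b)
    have hne : v (D.erase (g a)) ≠ v (D.erase (g b)) := by
      intro h
      rw [h, hb2] at ha2
      have : g a ∈ D.erase (g b) := Finset.mem_erase.2 ⟨hgab, gD a⟩
      rw [ha2] at this
      exact (Finset.notMem_erase _ _) this
    have hloc : ∀ j, Odd (v (D.erase (g a)) j - v (D.erase (g b)) j) → j = g a ∨ j = g b := by
      intro j hj
      by_contra hcon
      push Not at hcon
      have i1 : j ∈ oddPart u (v (D.erase (g a))) ↔ j ∈ oddPart u (v (D.erase (g b))) := by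
        rw [ha2, hb2, Finset.mem_erase, Finset.mem_erase]
        exact ⟨fun h => ⟨hcon.2, h.2⟩, fun h => ⟨hcon.1, h.2⟩⟩
      rw [mem_oddPart, mem_oddPart] at i1
      rw [Int.odd_iff] at i1 hj
      rw [Int.odd_iff] at i1
      omega
    obtain ⟨j, hj⟩ := hF _ ha1 _ hb1 hne
    obtain ⟨k, hk⟩ := hF _ hb1 _ ha1 hne.symm
    have hj' := hloc j (by rw [hj]; exact odd_one)
    have hk' := hloc k (by
      rw [show v (D.erase (g a)) k - v (D.erase (g b)) k = -1 by omega]
      exact ⟨-1, by norm_num⟩)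
    simp only [hX, hE]
    rcases hj' with rfl | rfl <;> rcases hk' with hk' | hk' <;> rw [hk'] at hk <;> omega
  -- both signs occur
  obtain ⟨hm1, hm2⟩ := hv _ (hWs m) (hWc m)
  have hnem : v (D.erase (g m)) ≠ u := by
    intro h
    rw [h] at hm2
    have : (D.erase (g m)).Nonempty := Finset.card_pos.1 (by rw [hWc]; exact hm)
    obtain ⟨x, hx⟩ := this
    rw [← hm2, mem_oddPart] at hx
    simp at hx
  have hsign : ∀ j, Odd (v (D.erase (g m)) j - u j) → ∃ a, a < m ∧ g a = j := by
    intro j hj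
    have : j ∈ D.erase (g m) := by rw [← hm2, mem_oddPart]; exact hj
    obtain ⟨hj1, hj2⟩ := Finset.mem_erase.1 this
    obtain ⟨a, ha, rfl⟩ := gsurj j hj2
    refine ⟨a, ?_, rfl⟩
    rcases Nat.lt_or_ge a m with h | h
    · exact h
    · exact absurd (by rw [le_antisymm ha h]) hj1
  obtain ⟨j, hj⟩ := hF _ hm1 _ hu hnem
  obtain ⟨k, hk⟩ := hF _ hu _ hm1 hnem.symm
  obtain ⟨a, ha, rfl⟩ := hsign j (by rw [hj]; exact odd_one)
  obtain ⟨b, hb, rfl⟩ := hsign k (by
    rw [show v (D.erase (g m)) k - u k = -1 by omega]; exact ⟨-1, by norm_num⟩)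
  have ta : τ a = 1 := by
    rw [← h2 a m ha le_rfl]
    simp only [hX]
    rw [hj]
    rfl
  have tb : τ b = -1 := by
    rw [← h2 b m hb le_rfl]
    simp only [hX]
    rw [show v (D.erase (g m)) (g b) - u (g b) = -1 by omega]
    rfl
  have key := core m X E τ h1 h2 h3
  rcases lt_trichotomy a b with h | h | h
  · exact key (b - a) a (by omega) (Or.inl ⟨ta, by rw [show a + (b - a) = b by omega]; exact tb⟩)
  · rw [h, tb] at ta; omega
  · exact key (a - b) b (by omega) (Or.inr ⟨tb, by rw [show b + (a - b) = a by omega]; exact ta⟩)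

end

/-- The vector `w` is `A`-covering: every `a ∈ A` occurs as a coordinate of `w`. -/
def IsCovering {q : ℕ} (A : Set ℤ) (w : Fin q → ℤ) : Prop := ∀ a ∈ A, ∃ j, w j = a

/-- The family `F` is `A`-covering: for any two distinct members `u`, `v` the difference `u - v`
is `A`-covering. -/
def IsCoveringFamily {q : ℕ} (A : Set ℤ) (F : Set (Fin q → ℤ)) : Prop :=
  ∀ u ∈ F, ∀ v ∈ F, u ≠ v → IsCovering A (u - v)

lemma cov_one {q : ℕ} {A : Set ℤ} (hA : (1 : ℤ) ∈ A) {F : Set (Fin q → ℤ)}
    (h : IsCoveringFamily A F) : ∀ u ∈ F, ∀ v ∈ F, u ≠ v → ∃ j, u j - v j = 1 := by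
  intro u hu v hv huv
  obtain ⟨j, hj⟩ := h u hu v hv huv 1 hA
  exact ⟨j, hj⟩

/-- No full layer over `N` coordinates next to a member. -/
theorem layer (m : ℕ) (hm : 0 < m) : ∃ N : ℕ, ∀ (q : ℕ) (F : Set (Fin q → ℤ)),
    (∀ u ∈ F, ∀ v ∈ F, u ≠ v → ∃ j, u j - v j = 1) → ∀ u ∈ F, ∀ S : Finset (Fin q),
      N ≤ S.card → ∃ W ⊆ S, W.card = m ∧ ∀ v ∈ F, oddPart u v ≠ W := by
  classical
  obtain ⟨N, hN⟩ := Pool.Agent.MP_5a1161_co.ramsey m (Fin m → Fin 3) (m + 1)
  refine ⟨N, fun q F hF u hu S hS => ?_⟩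
  by_contra hcon
  push Not at hcon
  have hch : ∀ W : Finset (Fin q), ∃ v : Fin q → ℤ, W ⊆ S → W.card = m → v ∈ F ∧ oddPart u v = W := by
    intro W
    by_cases h : W ⊆ S ∧ W.card = m
    · obtain ⟨v, hv, hv'⟩ := hcon W h.1 h.2
      exact ⟨v, fun _ _ => ⟨hv, hv'⟩⟩
    · exact ⟨u, fun h1 h2 => absurd ⟨h1, h2⟩ h⟩
  choose v hv using hch
  let code : ℤ → Fin 3 := fun x => if x = 1 then 1 else if x = -1 then 2 else 0
  have hcode : ∀ x y, code x = code y → ty x = ty y := by
    intro x y h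
    simp only [code] at h
    unfold ty
    split_ifs at h ⊢ <;> first | rfl | exact absurd h (by decide)
  let col : Finset (Fin q) → (Fin m → Fin 3) := fun W =>
    if h : W.card = m then fun a =>
      code (v W (W.orderEmbOfFin h a) - u (W.orderEmbOfFin h a)) else fun _ => 0
  obtain ⟨D, hDS, hD, c, hc⟩ := hN (Fin q) col S hS
  -- a sample subset of `D`
  obtain ⟨W₀, hW₀, hW₀c⟩ := Finset.exists_subset_card_eq (s := D) (n := m) (by omega)
  refine no_D F hF u hu m hm D hD v (fun W hW hWc => hv W (hW.trans hDS) hWc)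
    (fun a => ty (v W₀ (W₀.orderEmbOfFin hW₀c a) - u (W₀.orderEmbOfFin hW₀c a))) ?_
  intro W hW h a
  have e1 := hc W hW h
  have e2 := hc W₀ hW₀ hW₀c
  have e3 : col W a = col W₀ a := by rw [e1, e2]
  simp only [col, dif_pos h, dif_pos hW₀c] at e3
  exact hcode _ _ e3


lemma mem_oddPart_iff {q : ℕ} (x u v : Fin q → ℤ) (i : Fin q) :
    i ∈ oddPart u v ↔ ¬ (i ∈ oddPart x u ↔ i ∈ oddPart x v) := by
  rw [mem_oddPart, mem_oddPart, mem_oddPart, Int.odd_iff, Int.odd_iff, Int.odd_iff]
  omega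

/-- Two full layers over a large set `C` of coordinates at a small distance are impossible. -/
theorem two_layers (b : ℕ) : ∃ N : ℕ, ∀ (q : ℕ) (F : Set (Fin q → ℤ)),
    (∀ u ∈ F, ∀ v ∈ F, u ≠ v → ∃ j, u j - v j = 1) → ∀ x : Fin q → ℤ, ∀ C : Finset (Fin q),
      N ≤ C.card → ∀ y : Finset (Fin q), Disjoint y C → ∀ k m : ℕ, 0 < m → m ≤ b →
      k + m ≤ C.card → (∀ W ⊆ C, W.card = k → ∃ v ∈ F, oddPart x v = y ∪ W) →
      (∀ W ⊆ C, W.card = k + m → ∃ v ∈ F, oddPart x v = y ∪ W) → False := by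
  classical
  have hN : ∀ m : ℕ, ∃ N : ℕ, 0 < m → ∀ (q : ℕ) (F : Set (Fin q → ℤ)),
    (∀ u ∈ F, ∀ v ∈ F, u ≠ v → ∃ j, u j - v j = 1) → ∀ u ∈ F, ∀ S : Finset (Fin q),
      N ≤ S.card → ∃ W ⊆ S, W.card = m ∧ ∀ v ∈ F, oddPart u v ≠ W := by
    intro m
    by_cases hm : 0 < m
    · obtain ⟨N, h⟩ := layer m hm
      exact ⟨N, fun _ => h⟩
    · exact ⟨0, fun h => absurd h hm⟩
  choose N hN using hN
  refine ⟨2 * ∑ i ∈ range (b + 1), N i, fun q F hF x C hC y hy k m hm hmb hkm hk hl => ?_⟩
  have hNm : N m ≤ ∑ i ∈ range (b + 1), N i :=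
    Finset.single_le_sum (f := N) (fun _ _ => Nat.zero_le _) (by simp; omega)
  by_cases hcase : N m ≤ C.card - k
  · -- go up from a `k`-set
    obtain ⟨A, hAC, hA⟩ := Finset.exists_subset_card_eq (s := C) (n := k) (by omega)
    obtain ⟨u, hu, hux⟩ := hk A hAC hA
    obtain ⟨W, hW, hWc, hWn⟩ := hN m hm q F hF u hu (C \ A) (by
      rw [card_sdiff_of_subset hAC, hA]; exact hcase)
    have hdis : Disjoint A W := by
      rw [Finset.disjoint_left]
      intro i hi hi'
      exact (mem_sdiff.1 (hW hi')).2 hi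
    obtain ⟨v, hv, hvx⟩ := hl (A ∪ W) (union_subset hAC (hW.trans sdiff_subset))
      (by rw [card_union_of_disjoint hdis, hA, hWc])
    refine hWn v hv ?_
    ext i
    rw [mem_oddPart_iff x, hux, hvx, mem_union, mem_union, mem_union]
    have h1 : i ∈ A → i ∉ W := fun h => Finset.disjoint_left.1 hdis h
    have h2 : i ∈ y → i ∉ C := fun h => Finset.disjoint_left.1 hy h
    have h3 : i ∈ W → i ∈ C := fun h => (mem_sdiff.1 (hW h)).1
    tauto
  · -- go down from a `(k+m)`-set
    obtain ⟨B, hBC, hB⟩ := Finset.exists_subset_card_eq (s := C) (n := k + m) (by omega)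
    obtain ⟨u, hu, hux⟩ := hl B hBC hB
    obtain ⟨W, hW, hWc, hWn⟩ := hN m hm q F hF u hu B (by rw [hB]; omega)
    obtain ⟨v, hv, hvx⟩ := hk (B \ W) (sdiff_subset.trans hBC) (by
      rw [card_sdiff_of_subset hW, hB, hWc]; omega)
    refine hWn v hv ?_
    ext i
    rw [mem_oddPart_iff x, hux, hvx, mem_union, mem_union, mem_sdiff]
    have h1 : i ∈ W → i ∈ B := fun h => hW h
    have h2 : i ∈ y → i ∉ C := fun h => Finset.disjoint_left.1 hy h
    have h3 : i ∈ B → i ∈ C := fun h => hBC h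
    tauto

/-- Families whose parity oddPartterns are symmetric in a large set `C` of coordinates. -/
theorem symmetric_bound (b : ℕ) : ∃ N : ℕ, b ≤ N ∧ ∀ (q : ℕ) (F : Set (Fin q → ℤ)),
    (∀ u ∈ F, ∀ v ∈ F, u ≠ v → ∃ j, u j - v j = 1) → ∀ x : Fin q → ℤ, ∀ C : Finset (Fin q),
      N ≤ C.card →
      (∀ u ∈ F, ∀ W : Finset (Fin q), W \ C = oddPart x u \ C →
        (W ∩ C).card = (oddPart x u ∩ C).card → ∃ v ∈ F, oddPart x v = W) →
      F.Finite ∧ F.ncard ≤ 2 ^ (q - b) * b.choose (b / 2) := by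
  classical
  obtain ⟨N, hN⟩ := two_layers b
  refine ⟨N + b, by omega, fun q F hF x C hC hsym => ?_⟩
  have hinj : Set.InjOn (oddPart x) F := by
    intro u hu v hv huv
    by_contra hne
    obtain ⟨j, hj⟩ := hF u hu v hv hne
    have h1 : j ∈ oddPart x u ↔ j ∈ oddPart x v := by rw [huv]
    rw [mem_oddPart, mem_oddPart, Int.odd_iff, Int.odd_iff] at h1
    omega
  have hfin : F.Finite := Set.Finite.of_injOn (t := Set.univ) (fun _ _ => Set.mem_univ _) hinj
    Set.finite_univ
  refine ⟨hfin, ?_⟩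
  set P : Finset (Finset (Fin q)) := hfin.toFinset.image (oddPart x) with hP
  have hPc : F.ncard = P.card := by
    rw [hP, Finset.card_image_of_injOn (by simpa using hinj), Set.ncard_eq_toFinset_card F hfin]
  have hPm : ∀ W, W ∈ P ↔ ∃ u ∈ F, oddPart x u = W := by
    intro W
    simp [hP]
  -- equal sizes at distance at most `b`
  have hsz : ∀ W₁ ∈ P, ∀ W₂ ∈ P, W₁ \ C = W₂ \ C → (W₁ ∩ C).card < (W₂ ∩ C).card →
      (W₂ ∩ C).card ≤ (W₁ ∩ C).card + b → False := by
    intro W₁ h₁ W₂ h₂ hC12 hlt hle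
    obtain ⟨u₁, hu₁, hu₁'⟩ := (hPm W₁).1 h₁
    obtain ⟨u₂, hu₂, hu₂'⟩ := (hPm W₂).1 h₂
    have hq2 : (W₂ ∩ C).card ≤ C.card := Finset.card_le_card Finset.inter_subset_right
    have hd : Disjoint (W₁ \ C) C := Finset.sdiff_disjoint
    have hmk : ∀ W ⊆ C, (W₁ \ C ∪ W) \ C = W₁ \ C ∧ (W₁ \ C ∪ W) ∩ C = W := by
      intro W hW
      constructor
      · ext i
        simp only [mem_sdiff, mem_union]
        have : i ∈ W → i ∈ C := fun h => hW h
        tauto
      · ext i
        simp only [mem_sdiff, mem_union, mem_inter]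
        have : i ∈ W → i ∈ C := fun h => hW h
        tauto
    refine hN q F hF x C (by omega) (W₁ \ C) hd (W₁ ∩ C).card ((W₂ ∩ C).card - (W₁ ∩ C).card)
      (by omega) (by omega) (by omega) ?_ ?_
    · intro W hWC hW
      refine hsym u₁ hu₁ _ ?_ ?_
      · rw [(hmk W hWC).1, hu₁']
      · rw [(hmk W hWC).2, hu₁', hW]
    · intro W hWC hW
      refine hsym u₂ hu₂ _ ?_ ?_
      · rw [(hmk W hWC).1, hu₂', hC12]
      · rw [(hmk W hWC).2, hu₂', hW]; omega
  obtain ⟨B, hBC, hB⟩ := Finset.exists_subset_card_eq (s := C) (n := b) (by omega)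
  have hBq : b ≤ q := by
    have := Finset.card_le_univ B
    rwa [hB, Fintype.card_fin] at this
  have hcC : ∀ W : Finset (Fin q), (W ∩ C).card = (W ∩ B).card + ((W \ B) ∩ C).card := by
    intro W
    rw [← Finset.card_inter_add_card_sdiff (W ∩ C) B]
    congr 2
    · ext i
      simp only [mem_inter]
      have : i ∈ B → i ∈ C := fun h => hBC h
      tauto
    · ext i
      simp only [mem_inter, mem_sdiff]
      tauto
  have hsC : ∀ W : Finset (Fin q), W \ C = (W \ B) \ C := by
    intro W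
    ext i
    simp only [mem_sdiff]
    have : i ∈ B → i ∈ C := fun h => hBC h
    tauto
  have hfib : ∀ y ∈ (Bᶜ).powerset, (P.filter fun W => W \ B = y).card ≤ b.choose (b / 2) := by
    intro y _
    rcases (P.filter fun W => W \ B = y).eq_empty_or_nonempty with h0 | ⟨W₀, hW₀⟩
    · rw [h0]; simp
    · obtain ⟨hW₀P, hW₀y⟩ := Finset.mem_filter.1 hW₀
      calc (P.filter fun W => W \ B = y).card
          ≤ (Finset.powersetCard (W₀ ∩ B).card B).card := by
            refine Finset.card_le_card_of_injOn (fun W => W ∩ B) ?_ ?_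
            · intro W hW
              obtain ⟨hWP, hWy⟩ := Finset.mem_filter.1 hW
              rw [Finset.mem_coe, Finset.mem_powersetCard]
              refine ⟨Finset.inter_subset_right, ?_⟩
              have c1 := hcC W
              have c2 := hcC W₀
              rw [hWy] at c1
              rw [hW₀y] at c2
              have c3 : (W ∩ B).card ≤ b := by
                rw [← hB]; exact Finset.card_le_card Finset.inter_subset_right
              have c4 : (W₀ ∩ B).card ≤ b := by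
                rw [← hB]; exact Finset.card_le_card Finset.inter_subset_right
              have c5 : W \ C = W₀ \ C := by rw [hsC W, hsC W₀, hWy, hW₀y]
              rcases lt_trichotomy (W ∩ C).card (W₀ ∩ C).card with h | h | h
              · exact (hsz W hWP W₀ hW₀P c5 h (by omega)).elim
              · show (W ∩ B).card = (W₀ ∩ B).card
                omega
              · exact (hsz W₀ hW₀P W hWP c5.symm h (by omega)).elim
            · intro W hW W' hW' h
              obtain ⟨-, hWy⟩ := Finset.mem_filter.1 hW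
              obtain ⟨-, hWy'⟩ := Finset.mem_filter.1 hW'
              simp only at h
              rw [← Finset.sdiff_union_inter W B, ← Finset.sdiff_union_inter W' B, hWy, hWy', h]
        _ = b.choose (W₀ ∩ B).card := by rw [Finset.card_powersetCard, hB]
        _ ≤ b.choose (b / 2) := Nat.choose_le_middle _ _
  calc F.ncard = P.card := hPc
    _ ≤ b.choose (b / 2) * (Bᶜ).powerset.card := by
        refine Finset.card_le_mul_card_image_of_maps_to (f := fun W => W \ B) ?_ _ hfib
        intro W _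
        rw [Finset.mem_powerset]
        intro i hi
        exact Finset.mem_compl.2 (Finset.mem_sdiff.1 hi).2
    _ = 2 ^ (q - b) * b.choose (b / 2) := by
        rw [Finset.card_powerset, Finset.card_compl, Fintype.card_fin, hB, mul_comm]

/-- `(2 n + 1) C(2 n, n) ^ 2 ≤ 16 ^ n`. -/
lemma central_sq_le (n : ℕ) : (2 * n + 1) * n.centralBinom ^ 2 ≤ 16 ^ n := by
  induction n with
  | zero => simp
  | succ n ih =>
    have h := Nat.succ_mul_centralBinom_succ n
    have h2 : (n + 1) ^ 2 * ((2 * (n + 1) + 1) * (n + 1).centralBinom ^ 2) ≤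
        (n + 1) ^ 2 * 16 ^ (n + 1) := by
      calc (n + 1) ^ 2 * ((2 * (n + 1) + 1) * (n + 1).centralBinom ^ 2)
          = (2 * n + 3) * ((n + 1) * (n + 1).centralBinom) ^ 2 := by ring
        _ = (2 * n + 3) * (2 * (2 * n + 1) * n.centralBinom) ^ 2 := by rw [h]
        _ = (4 * (2 * n + 3) * (2 * n + 1)) * ((2 * n + 1) * n.centralBinom ^ 2) := by ring
        _ ≤ (4 * (2 * n + 3) * (2 * n + 1)) * 16 ^ n := Nat.mul_le_mul_left _ ih
        _ ≤ (16 * (n + 1) ^ 2) * 16 ^ n := by
            refine Nat.mul_le_mul_right _ ?_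
            nlinarith
        _ = (n + 1) ^ 2 * 16 ^ (n + 1) := by ring
    exact Nat.le_of_mul_le_mul_left h2 (by positivity)

/-- The normalised middle binomial coefficient `C(2 n, n) / 4 ^ n` is at most `1 / √(2 n + 1)`;
here in the form `c ^ 2 (2 n + 1) ≥ 4 → 2 C(2 n, n) ≤ c 4 ^ n`. -/
lemma two_centralBinom_le (c : ℝ) (n : ℕ) (hc : 0 < c) (h : 4 ≤ c ^ 2 * (2 * n + 1)) :
    2 * (n.centralBinom : ℝ) ≤ c * 4 ^ n := by
  have h1 : ((2 * n + 1 : ℕ) : ℝ) * (n.centralBinom : ℝ) ^ 2 ≤ 16 ^ n := by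
    exact_mod_cast central_sq_le n
  push_cast at h1
  have h3 : (2 * (n.centralBinom : ℝ)) ^ 2 ≤ (c * 4 ^ n) ^ 2 := by
    calc (2 * (n.centralBinom : ℝ)) ^ 2 = 4 * (n.centralBinom : ℝ) ^ 2 := by ring
      _ ≤ c ^ 2 * (2 * n + 1) * (n.centralBinom : ℝ) ^ 2 :=
          mul_le_mul_of_nonneg_right h (by positivity)
      _ = c ^ 2 * ((2 * n + 1) * (n.centralBinom : ℝ) ^ 2) := by ring
      _ ≤ c ^ 2 * 16 ^ n := mul_le_mul_of_nonneg_left h1 (by positivity)
      _ = (c * 4 ^ n) ^ 2 := by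
          rw [mul_pow, ← pow_mul, mul_comm n 2, pow_mul]
          norm_num
  exact le_of_sq_le_sq h3 (by positivity)


/-- A positive proportion of every layer over `N` coordinates next to a member is missing. -/
theorem layer_fraction (m : ℕ) (hm : 0 < m) : ∃ N K : ℕ, 0 < K ∧
    ∀ (q : ℕ) (F : Set (Fin q → ℤ)),
    (∀ u ∈ F, ∀ v ∈ F, u ≠ v → ∃ j, u j - v j = 1) → ∀ u ∈ F, ∀ S : Finset (Fin q),
      N ≤ S.card → S.card.choose m ≤
        K * {W : Finset (Fin q) | W ⊆ S ∧ W.card = m ∧ ∀ v ∈ F, oddPart u v ≠ W}.ncard := by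
  classical
  obtain ⟨N₀, hN₀⟩ := layer m hm
  set N := N₀ + m with hN
  refine ⟨N, N.choose m, Nat.choose_pos (by omega), fun q F hF u hu S hS => ?_⟩
  set M : Finset (Finset (Fin q)) :=
    (powersetCard m S).filter fun W => ∀ v ∈ F, oddPart u v ≠ W with hM
  have hMn : {W : Finset (Fin q) | W ⊆ S ∧ W.card = m ∧ ∀ v ∈ F, oddPart u v ≠ W}.ncard =
      M.card := by
    rw [← Set.ncard_coe_finset]
    congr 1
    ext W
    simp [hM, mem_powersetCard, and_assoc]
  rw [hMn]
  have h1 : powersetCard N S ⊆ M.biUnion fun W => (powersetCard N S).filter fun T => W ⊆ T := by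
    intro T hT
    obtain ⟨hTS, hTc⟩ := mem_powersetCard.1 hT
    obtain ⟨W, hW, hWc, hWn⟩ := hN₀ q F hF u hu T (by omega)
    refine mem_biUnion.2 ⟨W, ?_, mem_filter.2 ⟨hT, hW⟩⟩
    exact mem_filter.2 ⟨mem_powersetCard.2 ⟨hW.trans hTS, hWc⟩, hWn⟩
  have h2 : ∀ W ∈ M, ((powersetCard N S).filter fun T => W ⊆ T).card ≤
      (S.card - m).choose (N - m) := by
    intro W hW
    obtain ⟨hWS, hWc⟩ := mem_powersetCard.1 (mem_filter.1 hW).1
    calc ((powersetCard N S).filter fun T => W ⊆ T).card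
        ≤ (powersetCard (N - m) (S \ W)).card := by
          refine Finset.card_le_card_of_injOn (fun T => T \ W) ?_ ?_
          · intro T hT
            obtain ⟨hT1, hT2⟩ := mem_filter.1 hT
            obtain ⟨hT3, hT4⟩ := mem_powersetCard.1 hT1
            rw [Finset.mem_coe, mem_powersetCard]
            refine ⟨sdiff_subset_sdiff hT3 subset_rfl, ?_⟩
            show (T \ W).card = N - m
            rw [card_sdiff_of_subset hT2, hT4, hWc]
          · intro T hT T' hT' h
            obtain ⟨-, hT2⟩ := mem_filter.1 hT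
            obtain ⟨-, hT2'⟩ := mem_filter.1 hT'
            simp only at h
            rw [← sdiff_union_of_subset hT2, ← sdiff_union_of_subset hT2', h]
      _ = (S.card - m).choose (N - m) := by
          rw [card_powersetCard, card_sdiff_of_subset hWS, hWc]
  have h3 : S.card.choose N ≤ M.card * (S.card - m).choose (N - m) := by
    calc S.card.choose N = (powersetCard N S).card := (card_powersetCard _ _).symm
      _ ≤ (M.biUnion fun W => (powersetCard N S).filter fun T => W ⊆ T).card := card_le_card h1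
      _ ≤ ∑ W ∈ M, ((powersetCard N S).filter fun T => W ⊆ T).card := card_biUnion_le
      _ ≤ ∑ _W ∈ M, (S.card - m).choose (N - m) := sum_le_sum h2
      _ = M.card * (S.card - m).choose (N - m) := by rw [sum_const, smul_eq_mul]
  have h4 : S.card.choose N * N.choose m = S.card.choose m * (S.card - m).choose (N - m) :=
    Nat.choose_mul (by omega)
  have h5 : 0 < (S.card - m).choose (N - m) := Nat.choose_pos (by omega)
  refine Nat.le_of_mul_le_mul_right (c := (S.card - m).choose (N - m)) ?_ h5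
  calc S.card.choose m * (S.card - m).choose (N - m) = S.card.choose N * N.choose m := h4.symm
    _ ≤ (M.card * (S.card - m).choose (N - m)) * N.choose m := Nat.mul_le_mul_right _ h3
    _ = N.choose m * M.card * (S.card - m).choose (N - m) := by ring

/-- Ramsey's theorem for all layers up to `K` at once. -/
lemma ramsey_layers (κ : Type) [Finite κ] (K : ℕ) : ∀ t : ℕ, ∃ N : ℕ, ∀ (V : Type) [LinearOrder V]
    (col : Finset V → κ) (S : Finset V), N ≤ S.card →
    ∃ S' ⊆ S, S'.card = t ∧ ∀ k ≤ K, ∃ c, ∀ R ⊆ S', R.card = k → col R = c := by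
  induction K with
  | zero =>
    intro t
    obtain ⟨N, hN⟩ := Pool.Agent.MP_5a1161_co.ramsey 0 κ t
    refine ⟨N, fun V _ col S hS => ?_⟩
    obtain ⟨S', hS', hc, c, h⟩ := hN V col S hS
    refine ⟨S', hS', hc, fun k hk => ⟨c, fun R hR hRc => h R hR (by omega)⟩⟩
  | succ K ih =>
    intro t
    obtain ⟨N₁, hN₁⟩ := Pool.Agent.MP_5a1161_co.ramsey (K + 1) κ t
    obtain ⟨N, hN⟩ := ih N₁
    refine ⟨N, fun V _ col S hS => ?_⟩
    obtain ⟨S₁, hS₁, hc₁, h₁⟩ := hN V col S hS
    obtain ⟨S', hS', hc, c, h⟩ := hN₁ V col S₁ (by omega)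
    refine ⟨S', hS'.trans hS₁, hc, fun k hk => ?_⟩
    rcases Nat.lt_or_ge K k with hk' | hk'
    · exact ⟨c, fun R hR hRc => h R hR (by omega)⟩
    · obtain ⟨c', h'⟩ := h₁ k hk'
      exact ⟨c', fun R hR hRc => h' R (hR.trans hS') hRc⟩

/-- `r` covering families miss a parity pattern of size at most `r` in any `N` coordinates. -/
theorem colouring (r : ℕ) : ∃ N : ℕ, ∀ (q : ℕ) (F : Fin r → Set (Fin q → ℤ)),
    (∀ j, ∀ u ∈ F j, ∀ v ∈ F j, u ≠ v → ∃ i, u i - v i = 1) → ∀ (x : Fin q → ℤ)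
      (S : Finset (Fin q)), N ≤ S.card →
      ∃ W ⊆ S, W.card ≤ r ∧ ∀ j, ∀ v ∈ F j, oddPart x v ≠ W := by
  classical
  rcases Nat.eq_zero_or_pos r with rfl | hr
  · exact ⟨0, fun q F _ x S _ => ⟨∅, Finset.empty_subset _, by simp, fun j => j.elim0⟩⟩
  obtain ⟨N₁, hN₁⟩ := two_layers r
  obtain ⟨N, hN⟩ := ramsey_layers (Fin r) r (N₁ + r)
  refine ⟨N, fun q F hF x S hS => ?_⟩
  by_contra hcon
  push Not at hcon
  have hch : ∀ W : Finset (Fin q), ∃ j : Fin r, W ⊆ S → W.card ≤ r →
      ∃ v ∈ F j, oddPart x v = W := by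
    intro W
    by_cases h : W ⊆ S ∧ W.card ≤ r
    · obtain ⟨j, v, hv, hv'⟩ := hcon W h.1 h.2
      exact ⟨j, fun _ _ => ⟨v, hv, hv'⟩⟩
    · exact ⟨⟨0, hr⟩, fun h1 h2 => absurd ⟨h1, h2⟩ h⟩
  choose col hcol using hch
  obtain ⟨S', hS', hc, h⟩ := hN (Fin q) col S hS
  have hk : ∀ k : Fin (r + 1), ∃ c, ∀ R ⊆ S', R.card = (k : ℕ) → col R = c :=
    fun k => h k (by omega)
  choose c hc' using hk
  obtain ⟨k₁, k₂, hne, heq⟩ := Fintype.exists_ne_map_eq_of_card_lt c (by simp)
  -- two layers of the same colour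
  have key : ∀ k₁ k₂ : Fin (r + 1), k₁ < k₂ → c k₁ = c k₂ → False := by
    intro k₁ k₂ hlt heq
    have hlt' : (k₁ : ℕ) < k₂ := hlt
    refine hN₁ q (F (c k₁)) (hF (c k₁)) x S' (by omega) ∅ (by simp) k₁ (k₂ - k₁)
      (by omega) (by omega) (by omega) ?_ ?_
    · intro W hW hWc
      obtain ⟨v, hv, hv'⟩ := hcol W (hW.trans hS') (by omega)
      rw [hc' k₁ W hW hWc] at hv
      exact ⟨v, hv, by rw [hv']; simp⟩
    · intro W hW hWc
      obtain ⟨v, hv, hv'⟩ := hcol W (hW.trans hS') (by omega)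
      rw [hc' k₂ W hW (by omega), ← heq] at hv
      exact ⟨v, hv, by rw [hv']; simp⟩
  rcases lt_or_gt_of_ne hne with h | h
  · exact key k₁ k₂ h heq
  · exact key k₂ k₁ h heq.symm

/-- The parity patterns of `F` relative to `x` are symmetric in the coordinates of `C`: if `u` is a
member and `W` agrees with the odd part of `u - x` outside `C` and has the same number of elements
in `C`, then `W` is the odd part of `v - x` for some member `v`. -/
def SymmetricIn {q : ℕ} (x : Fin q → ℤ) (C : Finset (Fin q)) (F : Set (Fin q → ℤ)) : Prop :=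
  ∀ u ∈ F, ∀ W : Finset (Fin q), W \ C = oddPart x u \ C →
    (W ∩ C).card = (oddPart x u ∩ C).card → ∃ v ∈ F, oddPart x v = W

theorem result :
    (∀ m : ℕ, 0 < m → ∃ N K : ℕ, 0 < K ∧ ∀ (q : ℕ) (A : Set ℤ) (F : Set (Fin q → ℤ)),
      (1 : ℤ) ∈ A → IsCoveringFamily A F → ∀ u ∈ F, ∀ S : Finset (Fin q), N ≤ S.card →
        S.card.choose m ≤
          K * {W : Finset (Fin q) | W ⊆ S ∧ W.card = m ∧ ∀ v ∈ F, oddPart u v ≠ W}.ncard) ∧
    (∀ b : ℕ, ∃ N : ℕ, b ≤ N ∧ ∀ (q : ℕ) (A : Set ℤ) (F : Set (Fin q → ℤ)), (1 : ℤ) ∈ A →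
      IsCoveringFamily A F → ∀ (x : Fin q → ℤ) (C : Finset (Fin q)), N ≤ C.card →
        SymmetricIn x C F → F.Finite ∧ F.ncard ≤ 2 ^ (q - b) * b.choose (b / 2)) ∧
    (∀ ε : ℝ, 0 < ε → ∃ N : ℕ, ∀ (q : ℕ) (A : Set ℤ) (F : Set (Fin q → ℤ)), (1 : ℤ) ∈ A →
      IsCoveringFamily A F → ∀ (x : Fin q → ℤ) (C : Finset (Fin q)), N ≤ C.card →
        SymmetricIn x C F → F.Finite ∧ (F.ncard : ℝ) ≤ ε * 2 ^ q) ∧
    (∀ r : ℕ, ∃ N : ℕ, ∀ (q : ℕ) (A : Fin r → Set ℤ) (F : Fin r → Set (Fin q → ℤ)),
      (∀ j, (1 : ℤ) ∈ A j ∧ IsCoveringFamily (A j) (F j)) →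
        ∀ (x : Fin q → ℤ) (S : Finset (Fin q)), N ≤ S.card →
          ∃ W ⊆ S, W.card ≤ r ∧ ∀ j, ∀ v ∈ F j, oddPart x v ≠ W) := by
  refine ⟨?_, ?_, ?_, ?_⟩
  · intro m hm
    obtain ⟨N, K, hK, hN⟩ := layer_fraction m hm
    exact ⟨N, K, hK, fun q A F hA hF => hN q F (cov_one hA hF)⟩
  · intro b
    obtain ⟨N, hb, hN⟩ := symmetric_bound b
    exact ⟨N, hb, fun q A F hA hF x C hC hs => hN q F (cov_one hA hF) x C hC hs⟩
  · intro ε hε
    obtain ⟨n, hn⟩ := exists_nat_gt (1 / ε ^ 2)
    obtain ⟨N, -, hN⟩ := symmetric_bound (2 * n)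
    refine ⟨N + 2 * n, fun q A F hA hF x C hC hs => ?_⟩
    obtain ⟨h1, h2⟩ := hN q F (cov_one hA hF) x C (by omega) hs
    refine ⟨h1, ?_⟩
    have hq : 2 * n ≤ q := by
      have := Finset.card_le_univ C
      rw [Fintype.card_fin] at this
      omega
    rw [show 2 * n / 2 = n by omega, ← Nat.centralBinom_eq_two_mul_choose] at h2
    have h3 : 1 ≤ ε ^ 2 * n := by
      rw [div_lt_iff₀ (by positivity)] at hn
      linarith
    have h4 := two_centralBinom_le (2 * ε) n (by positivity) (by nlinarith [sq_nonneg ε])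
    have h5 : (n.centralBinom : ℝ) ≤ ε * 4 ^ n := by linarith
    calc (F.ncard : ℝ) ≤ ((2 ^ (q - 2 * n) * n.centralBinom : ℕ) : ℝ) := by exact_mod_cast h2
      _ = 2 ^ (q - 2 * n) * (n.centralBinom : ℝ) := by push_cast; ring
      _ ≤ 2 ^ (q - 2 * n) * (ε * 4 ^ n) := mul_le_mul_of_nonneg_left h5 (by positivity)
      _ = ε * (2 ^ (q - 2 * n) * 2 ^ (2 * n)) := by rw [pow_mul 2 2 n]; norm_num; ring
      _ = ε * 2 ^ q := by rw [← pow_add, Nat.sub_add_cancel hq]
  · intro r
    obtain ⟨N, hN⟩ := colouring r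
    exact ⟨N, fun q A F h x S hS => hN q F (fun j => cov_one (h j).1 (h j).2) x S hS⟩

end Pool.Agent.Results.MP_f4ab27_co.SymmetricParities
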